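import Mathlib
import Pool.Agent.Y215.SK.Defs
import Pool.Agent.TH409.SH.Tfae

set_option autoImplicit false

/-! # Sums of elements of a group of finite rank on affine varieties: definitions -/

namespace Pool.Agent.Y215.AF

open MvPolynomial IsDedekindDomain NumberField
open Pool.Agent.Helper259.AbsHt Pool.Agent.TH409.SH Pool.Agent.Y215.SK

/-- the absolute logarithmic height of the point with affine coordinates `x`, that is `h(1 : x)` -/
noncomputable def hA {τ : Type} [Finite τ] (x : τ → Qbar) : ℝ :=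
  absLogHeight (fun o : Option τ => o.elim (1 : Qbar) x)

/-- `h(1 : V)` for a finite sequence of vectors -/
noncomputable def hAV {r n : ℕ} (V : Fin r → Fin n → Qbar) : ℝ :=
  hA (fun p : Fin r × Fin n => V p.1 p.2)

variable {K : Type} [Field K] {ι κ : Type} {n : ℕ}

/-- For every finitely generated group `Γ` of algebraic numbers, all points `x` of `V` outside `V'`
with coordinates in `Qbar` of the form `∑ u_j V_j` satisfy `h(1 : x) ≤ C (1 + h(1 : V))`; here the
`u_j` have a power in `Γ` and the vectors `V_j` over `Qbar` are arbitrary. -/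
def HullHeights (F : ι → MvPolynomial (Fin n) (𝓞 K)) (G : κ → MvPolynomial (Fin n) (𝓞 K)) : Prop :=
  ∀ [Algebra K Qbar] (r : ℕ) (Γ : Subgroup Qbarˣ), Γ.FG → ∃ C : ℝ,
    ∀ (u : Fin r → Qbarˣ) (V : Fin r → Fin n → Qbar), (∀ j, u j ∈ DivHull Γ) →
      OffPt F G (fun a => ∑ j, (u j : Qbar) * V j a) →
      hA (fun a => ∑ j, (u j : Qbar) * V j a) ≤ C * (1 + hAV V)

/-- For every finitely generated group `Γ` of algebraic numbers and every number field `L` in
`Qbar`, the `L`-rational points of `V` outside `V'` of the form `∑ u_j V_j`, with `u_j` with a power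
in `Γ` and vectors `V_j` over `Qbar` with `h(1 : V) ≤ B`, are finite in number. -/
def HullRational (F : ι → MvPolynomial (Fin n) (𝓞 K)) (G : κ → MvPolynomial (Fin n) (𝓞 K)) :
    Prop :=
  ∀ [Algebra K Qbar] (r : ℕ) (Γ : Subgroup Qbarˣ), Γ.FG →
    ∀ (L : Type) [Field L] [NumberField L] (φ : L →+* Qbar) (B : ℝ),
      {x : Fin n → L | OffPt F G (fun a => φ (x a)) ∧
        ∃ (u : Fin r → Qbarˣ) (V : Fin r → Fin n → Qbar), (∀ j, u j ∈ DivHull Γ) ∧ hAV V ≤ B ∧
          ∀ a, φ (x a) = ∑ j, (u j : Qbar) * V j a}.Finite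

/-- the points of `V` outside `V'` with coordinates in `Qbar` of the form `∑ u_j s_j V_j`, with `u_j`
with a power in `Γ` and `h(1 : s) < ε` -/
def nearPts [Algebra K Qbar] (F : ι → MvPolynomial (Fin n) (𝓞 K))
    (G : κ → MvPolynomial (Fin n) (𝓞 K)) {r : ℕ} (Γ : Subgroup Qbarˣ) (ε : ℝ)
    (V : Fin r → Fin n → Qbar) : Set (Fin n → Qbar) :=
  {x | OffPt F G x ∧ ∃ (u : Fin r → Qbarˣ) (s : Fin r → Qbar), (∀ j, u j ∈ DivHull Γ) ∧
    hA s < ε ∧ ∀ a, x a = ∑ j, (u j : Qbar) * s j * V j a}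

/-- For `F` of degree at most `d`, all finitely generated groups `Γ` of algebraic numbers and all
vectors `V_j` over `Qbar`, the points over `Qbar` as above with `h(1 : s) < ε d r` are finite in
number, at most `A (1 + h(1 : V)) ^ e` for some `A` and `e` which depend on `Γ` but not on `V`. -/
def HullNear (ε : ℕ → ℕ → ℝ) (F : ι → MvPolynomial (Fin n) (𝓞 K))
    (G : κ → MvPolynomial (Fin n) (𝓞 K)) : Prop :=
  ∀ d : ℕ, 1 ≤ d → (∀ i, (F i).totalDegree ≤ d) →
    ∀ [Algebra K Qbar] (r : ℕ) (Γ : Subgroup Qbarˣ), Γ.FG →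
      ∃ (A : ℝ) (e : ℕ), ∀ V : Fin r → Fin n → Qbar, (nearPts F G Γ (ε d r) V).Finite ∧
        ((nearPts F G Γ (ε d r) V).ncard : ℝ) ≤ A * (1 + hAV V) ^ e

/-- `y` is a sum of at most `r` `S`-units of `L` -/
def UnitSum {L : Type} [Field L] [NumberField L] (S : Set (HeightOneSpectrum (𝓞 L))) (r : ℕ)
    (y : L) : Prop :=
  ∃ (J : Finset (Fin r)) (u : Fin r → Lˣ), (∀ j, u j ∈ S.unit L) ∧ y = ∑ j ∈ J, (u j : L)

/-- For every number field `L`, every finite set `S` of primes and every `r`, the points of `V`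
outside `V'` all of whose coordinates are sums of at most `r` `S`-units of `L` are finite in
number. -/
def UnitSumFinite (F : ι → MvPolynomial (Fin n) (𝓞 K)) (G : κ → MvPolynomial (Fin n) (𝓞 K)) :
    Prop :=
  ∀ (L : Type) [Field L] [NumberField L] [Algebra K L] (S : Set (HeightOneSpectrum (𝓞 L))),
    S.Finite → ∀ r : ℕ, {x : Fin n → L | OffPt F G x ∧ ∀ a, UnitSum S r (x a)}.Finite

end Pool.Agent.Y215.AF
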