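import Mathlib
import Pool.Agent.Y215.AF.Defs

set_option autoImplicit false

/-! # Sums of elements of a group of finite rank on affine varieties off a hypersurface -/

namespace Pool.Agent.Y215.AF

open MvPolynomial IsDedekindDomain NumberField
open Pool.Agent.Helper259.AbsHt Pool.Agent.Y215.SK

variable {k : Type} [Field k] {N n : ℕ}

/-- `x` is a point on `F = 0` and off `G = 0` -/
def OffA {L : Type} [Field L] [Algebra k L] (F : Fin N → MvPolynomial (Fin n) k)
    (G : MvPolynomial (Fin n) k) (x : Fin n → L) : Prop :=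
  (∀ i, aeval x (F i) = 0) ∧ aeval x G ≠ 0

/-- For every embedding of `k` in `Qbar` and every finitely generated group `Γ` of algebraic numbers,
all points `x` on `F = 0` and off `G = 0` of the form `∑ u_j V_j` with `r` terms satisfy
`h(1 : x) ≤ C (1 + h(1 : V))`; here the `u_j` have a power in `Γ` and the vectors `V_j` over `Qbar`
are arbitrary. -/
def HeightsOff (F : Fin N → MvPolynomial (Fin n) k) (G : MvPolynomial (Fin n) k) (r : ℕ) : Prop :=
  ∀ [Algebra k Qbar] (Γ : Subgroup Qbarˣ), Γ.FG → ∃ C : ℝ,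
    ∀ (u : Fin r → Qbarˣ) (V : Fin r → Fin n → Qbar), (∀ j, u j ∈ DivHull Γ) →
      OffA F G (fun a => ∑ j, (u j : Qbar) * V j a) →
      hA (fun a => ∑ j, (u j : Qbar) * V j a) ≤ C * (1 + hAV V)

/-- For every number field `L` in `Qbar` the `L`-rational points on `F = 0` and off `G = 0` of this
form with `h(1 : V) ≤ B` are finite in number. -/
def RationalOff (F : Fin N → MvPolynomial (Fin n) k) (G : MvPolynomial (Fin n) k) (r : ℕ) : Prop :=
  ∀ [Algebra k Qbar] (Γ : Subgroup Qbarˣ), Γ.FG →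
    ∀ (L : Type) [Field L] [NumberField L] (φ : L →+* Qbar) (B : ℝ),
      {x : Fin n → L | OffA F G (fun a => φ (x a)) ∧
        ∃ (u : Fin r → Qbarˣ) (V : Fin r → Fin n → Qbar), (∀ j, u j ∈ DivHull Γ) ∧ hAV V ≤ B ∧
          ∀ a, φ (x a) = ∑ j, (u j : Qbar) * V j a}.Finite

/-- the points over `Qbar` on `F = 0` and off `G = 0` of the form `∑ u_j s_j V_j` with `u_j` with a
power in `Γ` and `h(1 : s) < ε` -/
def nearOff [Algebra k Qbar] (F : Fin N → MvPolynomial (Fin n) k) (G : MvPolynomial (Fin n) k)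
    {r : ℕ} (Γ : Subgroup Qbarˣ) (ε : ℝ) (V : Fin r → Fin n → Qbar) : Set (Fin n → Qbar) :=
  {x | OffA F G x ∧ ∃ (u : Fin r → Qbarˣ) (s : Fin r → Qbar), (∀ j, u j ∈ DivHull Γ) ∧
    hA s < ε ∧ ∀ a, x a = ∑ j, (u j : Qbar) * s j * V j a}

/-- For all finitely generated `Γ` and all vectors `V_j` over `Qbar` these points are finite in
number, at most `A (1 + h(1 : V)) ^ e` with `A` and `e` independent of `V`. -/
def NearOff (ε : ℝ) (F : Fin N → MvPolynomial (Fin n) k) (G : MvPolynomial (Fin n) k) (r : ℕ) :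
    Prop :=
  ∀ [Algebra k Qbar] (Γ : Subgroup Qbarˣ), Γ.FG →
    ∃ (A : ℝ) (e : ℕ), ∀ V : Fin r → Fin n → Qbar, (nearOff F G Γ ε V).Finite ∧
      ((nearOff F G Γ ε V).ncard : ℝ) ≤ A * (1 + hAV V) ^ e

/-- For every number field `L ⊇ k` and every finite set `S` of primes, the points on `F = 0` and off
`G = 0` over `L` all of whose coordinates are sums of at most `r` `S`-units are finite in number. -/
def UnitSumOff (F : Fin N → MvPolynomial (Fin n) k) (G : MvPolynomial (Fin n) k) (r : ℕ) : Prop :=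
  ∀ (L : Type) [Field L] [NumberField L] [Algebra k L] (S : Set (HeightOneSpectrum (𝓞 L))),
    S.Finite → {x : Fin n → L | OffA F G x ∧ ∀ a, UnitSum S r (x a)}.Finite

end Pool.Agent.Y215.AF
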