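import Mathlib
import Pool.Agent.Y215.SK.FinC
import Pool.Agent.TH409.SH.Tfae

set_option autoImplicit false
set_option linter.unusedSectionVars false
set_option linter.unusedSimpArgs false

/-! # Punctured lines in affine varieties, from curves over any extension to number fields -/

namespace Pool.Agent.Y215.AF

open Finset MvPolynomial NumberField Pool.Agent.H533R3.SL Pool.Agent.W235.RM
open Pool.Agent.H159R3.Exp (Laur ExpCurvesIn FinitelyManyIntegral cpt gpt aeval_gpt cpt_laur)

/-- descent of rational curves from an arbitrary extension to number fields -/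
theorem descendM {K : Type} [Field K] [NumberField K] {n : ℕ} {ι : Type}
    (F : ι → MvPolynomial (Fin n) K) (W : MvPolynomial (Fin n ⊕ Fin n) K)
    (M0 : Type) [Field M0] [Algebra K M0]
    (v : M0 → Fin n → M0) (hv : ∀ j, Laur (fun t => v t j))
    (hF : ∀ i t, t ≠ 0 → aeval (v t) (F i) = 0) (k1 : ℕ)
    (hW : aeval (Sum.elim (v 1) (v (2 ^ k1))) W ≠ 0) :
    ∃ (L : Type) (_ : Field L) (_ : Algebra K L) (_ : NumberField L) (_ : FiniteDimensional K L)
      (v' : L → Fin n → L), (∀ j, Laur (fun t => v' t j)) ∧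
        (∀ i t, t ≠ 0 → aeval (v' t) (F i) = 0) ∧
        aeval (Sum.elim (v' 1) (v' (2 ^ k1))) W ≠ 0 := by
  classical
  have hchar : CharZero M0 := charZero_of_injective_algebraMap (algebraMap K M0).injective
  obtain ⟨e, Q, hQ⟩ := Laur.common v hv
  let D := Finset.univ.sup (fun j => (Q j).natDegree)
  let κ0 : Fin n × Fin (D + 1) → M0 := fun p => (Q p.1).coeff p.2
  have hκ0 : ∀ t, t ≠ 0 → cpt e κ0 t = v t := by
    intro t ht
    funext j
    rw [hQ t ht j]
    unfold cpt
    congr 1
    rw [Polynomial.eval_eq_sum_range' (n := D + 1) (Nat.lt_succ_of_le (Finset.le_sup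
      (f := fun j => (Q j).natDegree) (Finset.mem_univ j)))]
    rw [Finset.sum_range]
  have hgF : ∀ (M : Type) [Field M] [Algebra K M] (κ : Fin n × Fin (D + 1) → M) (k : ℕ)
      (p : MvPolynomial (Fin n) K),
      aeval κ (bind₁ (gpt (K := K) (D := D) e k) p) = aeval (cpt e κ (2 ^ k)) p := by
    intro M _ _ κ k p
    rw [aeval_bind₁]
    congr 2
    funext j
    rw [aeval_gpt]
  have hgW : ∀ (M : Type) [Field M] [Algebra K M] (κ : Fin n × Fin (D + 1) → M),
      aeval κ (bind₁ (Sum.elim (gpt (K := K) (D := D) e 0) (gpt (K := K) (D := D) e k1)) W)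
        = aeval (Sum.elim (cpt e κ 1) (cpt e κ (2 ^ k1))) W := by
    intro M _ _ κ
    rw [aeval_bind₁]
    congr 2
    funext j
    rcases j with j | j
    · simp only [Sum.elim_inl]
      rw [aeval_gpt, pow_zero]
    · simp only [Sum.elim_inr]
      rw [aeval_gpt]
  obtain ⟨κ, hκ, hκW⟩ := H952R2.Sextic.transfer (k := K) (kb := AlgebraicClosure K)
    (fun x : ι × ℕ => bind₁ (gpt (K := K) (D := D) e x.2) (F x.1))
    (bind₁ (Sum.elim (gpt (K := K) (D := D) e 0) (gpt (K := K) (D := D) e k1)) W)
    ⟨κ0, fun x => by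
      rw [hgF M0, hκ0 _ (pow_ne_zero _ two_ne_zero)]
      exact hF _ _ (pow_ne_zero _ two_ne_zero), by
      rw [hgW M0, hκ0 _ (pow_ne_zero _ two_ne_zero), hκ0 _ one_ne_zero]
      exact hW⟩
  let L := IntermediateField.adjoin K (Set.range κ)
  have hfinL : FiniteDimensional K L := by
    apply IntermediateField.finiteDimensional_adjoin
    intro x _
    exact Algebra.IsIntegral.isIntegral x
  have hNF : NumberField L := NumberField.of_module_finite K L
  let κL : Fin n × Fin (D + 1) → L :=
    fun j => ⟨κ j, IntermediateField.subset_adjoin K _ ⟨j, rfl⟩⟩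
  refine ⟨L, inferInstance, inferInstance, hNF, hfinL, cpt e κL, cpt_laur e κL, ?_, ?_⟩
  · intro i
    apply Pool.Agent.H159R3.Exp.Laur.zero_of_zero
      (Laur.eval₂ (algebraMap K L) (cpt e κL) (cpt_laur e κL) (F i))
    intro m
    change aeval (cpt e κL (2 ^ m)) (F i) = 0
    rw [← hgF L]
    apply (algebraMap L (AlgebraicClosure K)).injective
    rw [map_zero, ← hκ (i, m), ← aeval_algebraMap_apply]
    rfl
  · rw [← hgW L]
    intro h0
    apply hκW
    have h1 := congrArg (algebraMap L (AlgebraicClosure K)) h0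
    rw [map_zero, ← aeval_algebraMap_apply] at h1
    exact h1

/-- the pattern of the coefficients of homogenised affine curves -/
def TT (r n : ℕ) : Set (Fin (r + 1) × Fin (n + 1)) := {p | p = (0, 0) ∨ (p.1 ≠ 0 ∧ p.2 ≠ 0)}

/-- the homogeneous equations over the field -/
noncomputable def hK {K : Type} [Field K] {n : ℕ} (d : ℕ) (F : MvPolynomial (Fin n) (𝓞 K)) :
    MvPolynomial (Fin (n + 1)) K := map (algebraMap (𝓞 K) K) (hmg d F)

theorem hK_homog {K : Type} [Field K] {n : ℕ} (d : ℕ) (F : MvPolynomial (Fin n) (𝓞 K))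
    (hF : F.totalDegree ≤ d) : (hK d F).IsHomogeneous d :=
  (hmg_homog d F hF).map _

theorem hK_eval {K : Type} [Field K] {n : ℕ} (d : ℕ) (F : MvPolynomial (Fin n) (𝓞 K))
    (hF : F.totalDegree ≤ d) {M : Type} [CommRing M] [Algebra K M] (t : M) (x : Fin n → M) :
    aeval (Fin.cons t (fun i => t * x i) : Fin (n + 1) → M) (hK d F) =
      t ^ d * eval₂ ((algebraMap K M).comp (algebraMap (𝓞 K) K)) x F := by
  unfold hK
  rw [aeval_def, eval₂_map, hmg_eval _ d F hF]

theorem laurent_of_cur {K : Type} [Field K] [NumberField K] {ι κ : Type} {n r : ℕ}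
    (F : ι → MvPolynomial (Fin n) (𝓞 K)) (G : κ → MvPolynomial (Fin n) (𝓞 K)) (d : ℕ)
    (hF : ∀ i, (F i).totalDegree ≤ d) (d' : ℕ) (l0 : κ) (hG : (G l0).totalDegree ≤ d')
    (M : Type) [Field M] [Algebra K M] (c : Fin (r + 1) → Fin (n + 1) → M) (lam : Fin (r + 1) → ℕ)
    (hT : ∀ j a, (j, a) ∉ TT r n → c j a = 0)
    (hz : ∀ i, aeval (cur c lam) (hK d (F i)) = 0)
    (hnc : ∃ i i', cur c lam i * Polynomial.C (∑ j, c j i') ≠
      cur c lam i' * Polynomial.C (∑ j, c j i))
    (hGne : aeval (fun i => ∑ j, c j i) (X 0 * hK d' (G l0)) ≠ 0) :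
    HasLaurent F G := by
  classical
  have hchar : CharZero M := charZero_of_injective_algebraMap (algebraMap K M).injective
  obtain ⟨i, i', hc⟩ := hnc
  have hc0 : ∑ j, c j 0 = c 0 0 := by
    refine Finset.sum_eq_single 0 (fun j _ hj => hT j 0 ?_) (fun h => absurd (Finset.mem_univ _) h)
    rintro (h | h)
    · exact hj (congrArg Prod.fst h)
    · exact h.2 rfl
  rw [map_mul, aeval_X, hc0] at hGne
  have ha : c 0 0 ≠ 0 := left_ne_zero_of_mul hGne
  have hGne := right_ne_zero_of_mul hGne
  let P : Fin (n + 1) → Polynomial M := fun i => cur c lam i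
  have hP0 : ∀ s : M, (P 0).eval s = c 0 0 * s ^ (lam 0) := by
    intro s
    simp only [P]
    unfold cur
    rw [Polynomial.eval_finsetSum, Finset.sum_eq_single 0]
    · simp
    · intro j _ hj
      rw [hT j 0 (by
        rintro (h | h)
        · exact hj (congrArg Prod.fst h)
        · exact h.2 rfl)]
      simp
    · intro h
      exact absurd (Finset.mem_univ _) h
  have hP1 : ∀ i, (P i).eval 1 = ∑ j, c j i := by
    intro i
    exact cur_eval_one _ lam i
  have hP0' : ∀ s : M, s ≠ 0 → (P 0).eval s ≠ 0 := by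
    intro s hs
    rw [hP0]
    exact mul_ne_zero ha (pow_ne_zero _ hs)
  let w : M → Fin n → M := fun s j => (P j.succ).eval s / (P 0).eval s
  have hwL : ∀ j, Laur fun s => w s j := by
    intro j
    refine ⟨lam 0, Polynomial.C (c 0 0)⁻¹ * P j.succ, fun s hs => ?_⟩
    simp only [w]
    rw [hP0, Polynomial.eval_mul, Polynomial.eval_C]
    have h2 : s ^ lam 0 ≠ 0 := pow_ne_zero _ hs
    field_simp
  have hcons : ∀ s : M, s ≠ 0 → (fun i => (P i).eval s) = (Fin.cons ((P 0).eval s)
      (fun i => (P 0).eval s * w s i) : Fin (n + 1) → M) := by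
    intro s hs
    funext i
    refine Fin.cases ?_ (fun i => ?_) i
    · simp
    · simp only [Fin.cons_succ, w]
      rw [mul_div_cancel₀ _ (hP0' s hs)]
  have hwF : ∀ i s, s ≠ 0 →
      eval₂ ((algebraMap K M).comp (algebraMap (𝓞 K) K)) (w s) (F i) = 0 := by
    intro i s hs
    have h1 := hz i
    have h2 := congrArg (fun q : Polynomial M => q.eval s) h1
    simp only [Polynomial.eval_zero] at h2
    have h3 : (aeval (cur c lam) (hK d (F i))).eval s = aeval (fun i => (P i).eval s)
        (hK d (F i)) := by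
      rw [aeval_def, aeval_def]
      show Polynomial.evalRingHom s (MvPolynomial.eval₂ _ _ _) = _
      rw [MvPolynomial.hom_eval₂]
      congr 1
      refine RingHom.ext fun a => ?_
      show (algebraMap K (Polynomial M) a).eval s = algebraMap K M a
      rw [Polynomial.algebraMap_apply, Polynomial.eval_C]
    rw [h3, hcons s hs, hK_eval d (F i) (hF i)] at h2
    exact (mul_eq_zero.mp h2).resolve_left (pow_ne_zero _ (hP0' s hs))
  have hwG : eval₂ ((algebraMap K M).comp (algebraMap (𝓞 K) K)) (w 1) (G l0) ≠ 0 := by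
    have h1 : (fun i => ∑ j, c j i) = (Fin.cons ((P 0).eval 1)
        (fun i => (P 0).eval 1 * w 1 i) : Fin (n + 1) → M) := by
      rw [← hcons 1 one_ne_zero]
      funext i
      exact (hP1 i).symm
    rw [h1, hK_eval d' (G l0) hG] at hGne
    exact right_ne_zero_of_mul hGne
  have hwk : ∃ (k : ℕ) (j : Fin n), w (2 ^ k) j ≠ w 1 j := by
    by_contra hcon
    push Not at hcon
    have h1 : ∀ j : Fin (n + 1), P j * Polynomial.C ((P 0).eval 1) =
        P 0 * Polynomial.C ((P j).eval 1) := by
      intro j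
      refine Fin.cases rfl (fun j => ?_) j
      rw [← sub_eq_zero]
      by_contra hne
      have h2 := Polynomial.finite_setOfPred_isRoot hne
      have h3 : Function.Injective fun n : ℕ => (2 : M) ^ n := by
        intro a b hab
        have h5 : ((2 ^ a : ℕ) : M) = ((2 ^ b : ℕ) : M) := by
          push_cast
          exact hab
        exact Nat.pow_right_injective (le_refl 2) (Nat.cast_injective h5)
      apply Set.infinite_range_of_injective h3
      refine h2.subset ?_
      rintro _ ⟨k, rfl⟩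
      have h5 := hcon k j
      simp only [w] at h5
      rw [div_eq_div_iff (hP0' _ (pow_ne_zero _ two_ne_zero)) (hP0' _ one_ne_zero)] at h5
      simp only [Set.mem_ofPred_eq, Polynomial.IsRoot.def, Polynomial.eval_sub,
        Polynomial.eval_mul, Polynomial.eval_C]
      rw [h5]
      ring
    apply hc
    have h7 : (P 0).eval 1 ≠ 0 := hP0' 1 one_ne_zero
    have h9 : (Polynomial.C ((P 0).eval 1) : Polynomial M) ≠ 0 := Polynomial.C_ne_zero.mpr h7
    apply mul_left_cancel₀ h9
    rw [← hP1, ← hP1]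
    show Polynomial.C ((P 0).eval 1) * (P i * Polynomial.C ((P i').eval 1)) =
      Polynomial.C ((P 0).eval 1) * (P i' * Polynomial.C ((P i).eval 1))
    linear_combination Polynomial.C ((P i').eval 1) * h1 i - Polynomial.C ((P i).eval 1) * h1 i'
  obtain ⟨k1, j1, hk1⟩ := hwk
  -- descend
  have hmap : ∀ (M : Type) [Field M] [Algebra K M] (y : Fin n → M)
      (p : MvPolynomial (Fin n) (𝓞 K)), aeval y (map (algebraMap (𝓞 K) K) p)
        = eval₂ ((algebraMap K M).comp (algebraMap (𝓞 K) K)) y p := by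
    intro M _ _ y p
    rw [aeval_def, eval₂_map]
  obtain ⟨L, _, _, hNF, -, v', hv', hv'F, hv'W⟩ := descendM
    (fun i => map (algebraMap (𝓞 K) K) (F i))
    (rename Sum.inl (map (algebraMap (𝓞 K) K) (G l0)) * (X (Sum.inr j1) - X (Sum.inl j1))) M w hwL
    (fun i t ht => by
      rw [hmap M]
      exact hwF i t ht) k1 (by
    rw [map_mul, aeval_rename, map_sub, aeval_X, aeval_X]
    simp only [Sum.elim_comp_inl, Sum.elim_inr, Sum.elim_inl]
    rw [hmap M]
    exact mul_ne_zero hwG (sub_ne_zero.mpr hk1))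
  rw [map_mul, aeval_rename, map_sub, aeval_X, aeval_X] at hv'W
  simp only [Sum.elim_comp_inl, Sum.elim_inr, Sum.elim_inl] at hv'W
  refine ⟨L, inferInstance, hNF, inferInstance, v', hv', fun i t ht => ?_, ⟨l0, ?_⟩, k1, j1, ?_⟩
  · rw [← hmap L]
    exact hv'F i t ht
  · rw [← hmap L]
    exact left_ne_zero_of_mul hv'W
  · exact sub_ne_zero.mp (right_ne_zero_of_mul hv'W)

end Pool.Agent.Y215.AF
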