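import Mathlib
import Pool.Agent.Y215.AF.Cur
import Pool.Agent.H533R3.SL.Asm

set_option autoImplicit false
set_option linter.unusedSectionVars false
set_option linter.unusedSimpArgs false

/-! # Affine varieties not dominated by punctured lines: one hypersurface for all curves -/

namespace Pool.Agent.Y215.AF

open Finset MvPolynomial Pool.Agent.H533R3.SL Pool.Agent.W235.RM
open Pool.Agent.H159R3.Exp (Laur)

variable {n r : ℕ}

/-- The affine variety over `k` with (prime) ideal `I` is dominated by punctured lines: over some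
extension field `L` of `k` there is a nonconstant map `v` from the punctured line to the variety,
given by Laurent polynomials, such that `v 1` is a generic point of the variety over `k`. -/
def GmUniruled {k : Type} [Field k] (I : Ideal (MvPolynomial (Fin n) k)) : Prop :=
  ∃ (L : Type) (_ : Field L) (_ : Algebra k L) (v : L → Fin n → L), (∀ a, Laur fun t => v t a) ∧
    (∀ F ∈ I, ∀ t, t ≠ 0 → aeval (v t) F = 0) ∧ (∀ G, G ∉ I → aeval (v 1) G ≠ 0) ∧
    ∃ t s, t ≠ 0 ∧ s ≠ 0 ∧ v t ≠ v s

/-- the homogenised coefficients -/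
def homC {R : Type} [CommRing R] (c : Fin r → Fin n → R) : Fin (r + 1) → Fin (n + 1) → R :=
  Fin.cons (Fin.cons 1 (fun _ => 0)) (fun j => Fin.cons 0 (c j))

theorem homC_sum {R : Type} [CommRing R] (c : Fin r → Fin n → R) :
    (fun i => ∑ j, homC c j i) = (Fin.cons 1 (fun a => ∑ j, c j a) : Fin (n + 1) → R) := by
  funext i
  rw [Fin.sum_univ_succ]
  refine Fin.cases ?_ (fun i => ?_) i
  · simp [homC]
  · simp [homC]

theorem cur_homC_zero {R : Type} [CommRing R] (c : Fin r → Fin n → R) (l : Fin (r + 1) → ℕ) :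
    cur (homC c) l 0 = Polynomial.X ^ (l 0) := by
  unfold cur
  rw [Fin.sum_univ_succ]
  simp [homC]

theorem cur_homC_succ {R : Type} [CommRing R] (c : Fin r → Fin n → R) (l : Fin (r + 1) → ℕ)
    (a : Fin n) : cur (homC c) l a.succ =
      ∑ j : Fin r, Polynomial.C (c j a) * Polynomial.X ^ (l j.succ) := by
  unfold cur
  rw [Fin.sum_univ_succ]
  simp [homC]

theorem aeval_eval {k L : Type} [Field k] [Field L] [Algebra k L] {m : ℕ}
    (P : Fin m → Polynomial L) (F : MvPolynomial (Fin m) k) (s : L) :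
    (aeval P F : Polynomial L).eval s = aeval (fun i => (P i).eval s) F := by
  rw [aeval_def, aeval_def]
  show Polynomial.evalRingHom s (MvPolynomial.eval₂ _ _ _) = _
  rw [MvPolynomial.hom_eval₂]
  congr 1
  refine RingHom.ext fun a => ?_
  show (algebraMap k (Polynomial L) a).eval s = algebraMap k L a
  rw [Polynomial.algebraMap_apply, Polynomial.eval_C]

/-- the curve of a vector of coefficients -/
noncomputable def lc {L : Type} [Field L] (c : Fin r → Fin n → L) (l : Fin (r + 1) → ℕ) (t : L)
    (a : Fin n) : L := (∑ j : Fin r, c j a * t ^ (l j.succ)) / t ^ (l 0)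

theorem lc_laur {L : Type} [Field L] (c : Fin r → Fin n → L) (l : Fin (r + 1) → ℕ) (a : Fin n) :
    Laur fun t => lc c l t a := by
  refine ⟨l 0, ∑ j : Fin r, Polynomial.C (c j a) * Polynomial.X ^ (l j.succ), fun t ht => ?_⟩
  unfold lc
  rw [div_mul_cancel₀ _ (pow_ne_zero _ ht), Polynomial.eval_finsetSum]
  simp

theorem lc_one {L : Type} [Field L] (c : Fin r → Fin n → L) (l : Fin (r + 1) → ℕ) (a : Fin n) :
    lc c l 1 a = ∑ j, c j a := by
  unfold lc
  simp

theorem cur_eval_lc {L : Type} [Field L] (c : Fin r → Fin n → L) (l : Fin (r + 1) → ℕ) (t : L)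
    (ht : t ≠ 0) : (fun i => (cur (homC c) l i).eval t) =
      (Fin.cons (t ^ (l 0)) (fun a => t ^ (l 0) * lc c l t a) : Fin (n + 1) → L) := by
  funext i
  refine Fin.cases ?_ (fun i => ?_) i
  · rw [cur_homC_zero]
    simp
  · rw [cur_homC_succ, Fin.cons_succ]
    unfold lc
    rw [mul_div_cancel₀ _ (pow_ne_zero _ ht), Polynomial.eval_finsetSum]
    simp

/-- vanishing of the homogeneous equation on the curve -/
theorem lc_zero {k L : Type} [Field k] [Field L] [Algebra k L] (d : ℕ)
    (F : MvPolynomial (Fin n) k) (hF : F.totalDegree ≤ d) (c : Fin r → Fin n → L)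
    (l : Fin (r + 1) → ℕ) (h : aeval (cur (homC c) l) (hmg d F) = 0) (t : L) (ht : t ≠ 0) :
    aeval (lc c l t) F = 0 := by
  have h1 := congrArg (fun q : Polynomial L => q.eval t) h
  simp only [Polynomial.eval_zero] at h1
  rw [aeval_eval, cur_eval_lc c l t ht, aeval_def, hmg_eval _ d F hF] at h1
  exact (mul_eq_zero.1 h1).resolve_left (pow_ne_zero _ (pow_ne_zero _ ht))

/-- nonconstant -/
theorem lc_nonconst {L : Type} [Field L] [CharZero L] (c : Fin r → Fin n → L)
    (l : Fin (r + 1) → ℕ) (i i' : Fin (n + 1))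
    (h : cur (homC c) l i * Polynomial.C (∑ j, homC c j i') ≠
      cur (homC c) l i' * Polynomial.C (∑ j, homC c j i)) :
    ∃ k : ℕ, lc c l (2 ^ k) ≠ lc c l 1 := by
  by_contra hcon
  push Not at hcon
  have hs := homC_sum c
  have hs0 : ∑ j, homC c j 0 = 1 := by
    have := congrFun hs 0
    simpa using this
  have hsa : ∀ a : Fin n, ∑ j, homC c j a.succ = lc c l 1 a := by
    intro a
    have := congrFun hs a.succ
    simp only [Fin.cons_succ] at this
    rw [this, lc_one]
  have h1 : ∀ j : Fin (n + 1), cur (homC c) l j =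
      Polynomial.X ^ (l 0) * Polynomial.C (∑ j', homC c j' j) := by
    intro j
    refine Fin.cases ?_ (fun a => ?_) j
    · rw [cur_homC_zero, hs0, Polynomial.C_1, mul_one]
    · rw [← sub_eq_zero]
      by_contra hne
      have h2 := Polynomial.finite_setOfPred_isRoot hne
      have h3 : Function.Injective fun n : ℕ => (2 : L) ^ n := by
        intro a b hab
        have h5 : ((2 ^ a : ℕ) : L) = ((2 ^ b : ℕ) : L) := by
          push_cast
          exact hab
        exact Nat.pow_right_injective (le_refl 2) (Nat.cast_injective h5)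
      apply Set.infinite_range_of_injective h3
      refine h2.subset ?_
      rintro _ ⟨k, rfl⟩
      have h20 : (2 : L) ^ k ≠ 0 := pow_ne_zero _ two_ne_zero
      have h5 := congrFun (cur_eval_lc c l _ h20) a.succ
      simp only [Fin.cons_succ] at h5
      simp only [Set.mem_ofPred_eq, Polynomial.IsRoot.def, Polynomial.eval_sub,
        Polynomial.eval_mul, Polynomial.eval_C, Polynomial.eval_pow, Polynomial.eval_X]
      rw [h5, hsa, hcon k, sub_self]
  apply h
  rw [h1 i, h1 i', mul_assoc, mul_assoc, ← Polynomial.C_mul, ← Polynomial.C_mul,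
    mul_comm (∑ j', homC c j' i)]

/-- for a fixed vector of exponents, the nonconstant curves lie in a hypersurface -/
theorem exists_GA {k : Type} [Field k] [CharZero k] (FF : Set (MvPolynomial (Fin n) k))
    (hprime : (Ideal.span FF).IsPrime) (hnu : ¬ GmUniruled (Ideal.span FF)) (d : ℕ)
    (hd : ∀ F ∈ FF, F.totalDegree ≤ d) (l : Fin (r + 1) → ℕ)
    (i i' : Fin (n + 1)) (w : ℕ) :
    ∃ G : MvPolynomial (Fin n) k, G ∉ Ideal.span FF ∧
      ∀ (L : Type) [Field L] [Algebra k L] (c : Fin r → Fin n → L),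
        (∀ F ∈ FF, aeval (cur (homC c) l) (hmg d F) = 0) →
        (cur (homC c) l i * Polynomial.C (∑ j, homC c j i') -
          cur (homC c) l i' * Polynomial.C (∑ j, homC c j i)).coeff w
          ≠ 0 → aeval (fun i => ∑ j, c j i) G = 0 := by
  classical
  by_contra hcon
  push Not at hcon
  let R : Type := MvPolynomial (Fin r × Fin n) k
  let ct0 : Fin r → Fin n → R := fun j i => MvPolynomial.X (j, i)
  let ct : Fin (r + 1) → Fin (n + 1) → R := homC ct0
  let x0 : Fin n → R := fun i => ∑ j, ct0 j i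
  let xt : Fin (n + 1) → R := fun i => ∑ j, ct j i
  let N : R := (cur ct l i * Polynomial.C (xt i') - cur ct l i' * Polynomial.C (xt i)).coeff w
  let J : Ideal R := Ideal.span {a | ∃ F ∈ FF, ∃ t : ℕ,
    a = (aeval (cur ct l) (hmg d F) : Polynomial R).coeff t}
  have hmap : ∀ (L : Type) [Field L] [Algebra k L] (s : R →ₐ[k] L) (j : Fin (r + 1))
      (i : Fin (n + 1)), s (ct j i) = homC (fun j i => s (ct0 j i)) j i := by
    intro L _ _ s j i
    refine Fin.cases ?_ (fun j => ?_) j
    · refine Fin.cases ?_ (fun i => ?_) i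
      · simp [ct, homC]
      · simp [ct, homC]
    · refine Fin.cases ?_ (fun i => ?_) i
      · simp [ct, homC]
      · simp [ct, homC]
  -- specialisation
  have hcur : ∀ (L : Type) [Field L] [Algebra k L] (s : R →ₐ[k] L) (i : Fin (n + 1)),
      Polynomial.mapAlgHom s (cur ct l i) = cur (homC (fun j i => s (ct0 j i))) l i := by
    intro L _ _ s i
    unfold cur
    rw [map_sum]
    refine Finset.sum_congr rfl fun j _ => ?_
    rw [map_mul, map_pow]
    congr 1
    · show Polynomial.map (s : R →+* L) (Polynomial.C (ct j i)) = _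
      rw [Polynomial.map_C]
      congr 1
      exact hmap L s j i
    · congr 1
      exact Polynomial.map_X _
  have hFs : ∀ (L : Type) [Field L] [Algebra k L] (s : R →ₐ[k] L)
      (F : MvPolynomial (Fin (n + 1)) k),
      Polynomial.mapAlgHom s (aeval (cur ct l) F) =
        aeval (cur (homC (fun j i => s (ct0 j i))) l) F := by
    intro L _ _ s F
    have h1 := congrArg (fun f => f F) (MvPolynomial.comp_aeval (R := k) (cur ct l)
      (Polynomial.mapAlgHom s))
    refine Eq.trans h1 ?_
    show aeval (fun i => Polynomial.mapAlgHom s (cur ct l i)) F = _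
    congr 2
    funext i
    exact hcur L s i
  have hxs0 : ∀ (L : Type) [Field L] [Algebra k L] (s : R →ₐ[k] L)
      (G : MvPolynomial (Fin n) k),
      s (aeval x0 G) = aeval (fun i => ∑ j, (fun j i => s (ct0 j i)) j i) G := by
    intro L _ _ s G
    have h1 := congrArg (fun f => f G) (MvPolynomial.comp_aeval (R := k) x0 s)
    refine Eq.trans h1 ?_
    show aeval (fun i => s (x0 i)) G = _
    congr 2
    funext i
    simp only [x0, map_sum]
  have hxt : ∀ (L : Type) [Field L] [Algebra k L] (s : R →ₐ[k] L) (i : Fin (n + 1)),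
      s (xt i) = ∑ j, homC (fun j i => s (ct0 j i)) j i := by
    intro L _ _ s i
    show s (∑ j, ct j i) = _
    rw [map_sum]
    exact Finset.sum_congr rfl fun j _ => hmap L s j i
  have hNs : ∀ (L : Type) [Field L] [Algebra k L] (s : R →ₐ[k] L),
      s N = (cur (homC (fun j i => s (ct0 j i))) l i *
          Polynomial.C (∑ j, homC (fun j i => s (ct0 j i)) j i') -
        cur (homC (fun j i => s (ct0 j i))) l i' *
          Polynomial.C (∑ j, homC (fun j i => s (ct0 j i)) j i)).coeff w := by
    intro L _ _ s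
    have h1 : s N = (Polynomial.mapAlgHom s (cur ct l i * Polynomial.C (xt i') -
        cur ct l i' * Polynomial.C (xt i))).coeff w := by
      rw [Polynomial.coe_mapAlgHom, Polynomial.coeff_map]
      rfl
    rw [h1, map_sub, map_mul, map_mul, hcur, hcur]
    congr 3
    · rw [← hxt L s i']
      exact Polynomial.map_C _
    · rw [← hxt L s i]
      exact Polynomial.map_C _
  have h1I : (1 : MvPolynomial (Fin n) k) ∉ Ideal.span FF := by
    intro h
    exact hprime.ne_top ((Ideal.eq_top_iff_one _).2 h)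
  let M : Submonoid R :=
    { carrier := {a | ∃ (G : MvPolynomial (Fin n) k) (t : ℕ),
        G ∉ Ideal.span FF ∧ a = aeval x0 G * N ^ t}
      one_mem' := ⟨1, 0, h1I, by simp⟩
      mul_mem' := by
        rintro a b ⟨G, t, hG, rfl⟩ ⟨G', t', hG', rfl⟩
        refine ⟨G * G', t + t', ?_, ?_⟩
        · intro h
          rcases hprime.mem_or_mem h with h | h
          · exact hG h
          · exact hG' h
        · rw [map_mul, pow_add]
          ring }
  have hdisj : Disjoint (J : Set R) M := by
    rw [Set.disjoint_left]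
    rintro a haJ ⟨G, t, hGI, rfl⟩
    obtain ⟨L, iL, iA, c, hz, hN, hG⟩ := hcon G hGI
    let s : R →ₐ[k] L := MvPolynomial.aeval (fun q : Fin r × Fin n => c q.1 q.2)
    have hsc : (fun j i => s (ct0 j i)) = c := by
      funext j i
      exact MvPolynomial.aeval_X (fun q : Fin r × Fin n => c q.1 q.2) (j, i)
    have hJ : J ≤ RingHom.ker s.toRingHom := by
      rw [Ideal.span_le]
      rintro _ ⟨F, hF, t, rfl⟩
      show s _ = 0
      have h1 := hFs L s (hmg d F)
      rw [hsc, hz F hF] at h1
      have h2 := congrArg (fun P => Polynomial.coeff P t) h1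
      simp only [Polynomial.coe_mapAlgHom, Polynomial.coeff_map, Polynomial.coeff_zero] at h2
      exact h2
    have h2 : s (aeval x0 G * N ^ t) = 0 := hJ haJ
    rw [map_mul, map_pow, hxs0, hNs, hsc] at h2
    exact mul_ne_zero hG (pow_ne_zero _ hN) h2
  obtain ⟨P, hP, hJP, hPM⟩ := Ideal.exists_le_prime_disjoint J M hdisj
  let L : Type := FractionRing (R ⧸ P)
  let s : R →ₐ[k] L := (IsScalarTower.toAlgHom k (R ⧸ P) (FractionRing (R ⧸ P))).comp
    (Ideal.Quotient.mkₐ k P)
  have hs0 : ∀ a : R, s a = 0 ↔ a ∈ P := by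
    intro a
    show algebraMap (R ⧸ P) (FractionRing (R ⧸ P)) (Ideal.Quotient.mk P a) = 0 ↔ _
    rw [FaithfulSMul.algebraMap_eq_zero_iff, Ideal.Quotient.eq_zero_iff_mem]
  have hcharL : CharZero L := charZero_of_injective_algebraMap (algebraMap k L).injective
  obtain ⟨c, hc⟩ : ∃ c : Fin r → Fin n → L, c = fun j i => s (ct0 j i) := ⟨_, rfl⟩
  apply hnu
  refine ⟨L, inferInstance, inferInstance, lc c l, lc_laur c l, ?_, ?_, ?_⟩
  · intro F hF t ht
    have hI : Ideal.span FF ≤ RingHom.ker
        (MvPolynomial.aeval (R := k) (lc c l t)).toRingHom := by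
      rw [Ideal.span_le]
      intro F hF
      show aeval (lc c l t) F = 0
      refine lc_zero d F (hd F hF) c l ?_ t ht
      rw [hc, ← hFs L s (hmg d F)]
      ext t
      rw [Polynomial.coe_mapAlgHom, Polynomial.coeff_map, Polynomial.coeff_zero]
      exact (hs0 _).2 (hJP (Ideal.subset_span ⟨F, hF, t, rfl⟩))
    exact hI hF
  · intro G hGI h0
    have h1 : lc c l 1 = fun i => ∑ j, (fun j i => s (ct0 j i)) j i := by
      funext i
      rw [lc_one, hc]
    rw [h1, ← hxs0 L s G, hs0] at h0
    exact Set.disjoint_left.1 hPM h0 ⟨G, 0, hGI, by simp⟩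
  · obtain ⟨m, hm⟩ := lc_nonconst c l i i' (by
      intro h0
      have h1 := hNs L s
      rw [← hc, h0, sub_self, Polynomial.coeff_zero, hs0] at h1
      exact Set.disjoint_left.1 hPM h1 ⟨1, 1, h1I, by simp⟩)
    exact ⟨2 ^ m, 1, pow_ne_zero _ two_ne_zero, one_ne_zero, hm⟩

/-- all the nonconstant curves with `r` terms lie in one hypersurface -/
theorem exists_hyperA {k : Type} [Field k] [CharZero k] (FF : Set (MvPolynomial (Fin n) k))
    (hprime : (Ideal.span FF).IsPrime) (hnu : ¬ GmUniruled (Ideal.span FF)) (d : ℕ)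
    (hd1 : 1 ≤ d) (hd : ∀ F ∈ FF, F.totalDegree ≤ d) (r : ℕ) :
    ∃ G : MvPolynomial (Fin n) k, G ∉ Ideal.span FF ∧
      ∀ (L : Type) [Field L] [Algebra k L] (c : Fin r → Fin n → L) (l : Fin (r + 1) → ℕ),
        (∀ F ∈ FF, aeval (cur (homC c) l) (hmg d F) = 0) →
        (∃ i i', cur (homC c) l i * Polynomial.C (∑ j, homC c j i') ≠
          cur (homC c) l i' * Polynomial.C (∑ j, homC c j i)) →
        aeval (fun i => ∑ j, c j i) G = 0 := by
  classical
  choose H hH2 hH3 using fun (q : Set ((Fin (r + 1) → Fin (d + 1)) × (Fin (r + 1) → Fin (d + 1))) ×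
    Fin (n + 1) × Fin (n + 1) × Fin (r + 1)) =>
    exists_GA FF hprime hnu d hd (rep d q.1) q.2.1 q.2.2.1 (rep d q.1 q.2.2.2)
  refine ⟨∏ q, H q, ?_, ?_⟩
  · rw [hprime.prod_mem_iff]
    push Not
    intro q _
    exact hH2 q
  · intro L _ _ c l hz ⟨i, i', hc⟩
    have hp := pat_rep d l
    have hz' : ∀ F ∈ FF, aeval (cur (homC c) (rep d (pat d l))) (hmg d F) = 0 := by
      intro F hF
      exact cur_zero_transfer d l _ hp.symm (homC c) (hmg d F) d le_rfl
        (hmg_homog d F (hd F hF)) (hz F hF)
    have hc' : cur (homC c) (rep d (pat d l)) i * Polynomial.C (∑ j, homC c j i') ≠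
        cur (homC c) (rep d (pat d l)) i' * Polynomial.C (∑ j, homC c j i) := by
      intro h
      exact hc (cur_const_transfer d hd1 _ l hp (homC c) i i' _ _ h)
    obtain ⟨j, hj⟩ := exists_exponent (homC c) _ i i' _ _ hc'
    have h1 := hH3 (pat d l, i, i', j) L c hz' hj
    rw [map_prod]
    exact Finset.prod_eq_zero (Finset.mem_univ (pat d l, i, i', j)) h1

end Pool.Agent.Y215.AF
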