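import Mathlib
import Pool.Agent.Y215.AF.Cur
import Pool.Agent.Y215.AF.Defs

set_option autoImplicit false
set_option linter.unusedSectionVars false
set_option linter.unusedSimpArgs false

/-! # Heights of homogenised vectors -/

namespace Pool.Agent.Y215.AF

open Finset MvPolynomial IsDedekindDomain NumberField Height Module
open Pool.Agent.Helper259.AbsHt Pool.Agent.TH409.SH Pool.Agent.Y215.SK Pool.Agent.W235.RM
open Pool.Agent.H533R3.SL (cur)

variable {n r : ℕ}

theorem hA_nonneg {τ : Type} [Finite τ] (x : τ → Qbar) : 0 ≤ hA x := absLogHeight_nonneg _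

theorem hAV_nonneg (V : Fin r → Fin n → Qbar) : 0 ≤ hAV V := absLogHeight_nonneg _

theorem h1_le_hA {τ : Type} [Finite τ] (x : τ → Qbar) (a : τ) : h1 (x a) ≤ hA x := by
  have h := h1_ratio_le (fun o : Option τ => o.elim (1 : Qbar) x) (some a) none one_ne_zero
  have e : (fun o : Option τ => o.elim (1 : Qbar) x) (some a) /
      (fun o : Option τ => o.elim (1 : Qbar) x) none = x a := by
    simp
  rw [e] at h
  exact h

/-- finitely many rational points of bounded height -/
theorem northcott_affQ (L : Type) [Field L] [NumberField L] (φ : L →+* Qbar) (B : ℝ) :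
    {x : Fin n → L | hA (fun a => φ (x a)) ≤ B}.Finite := by
  classical
  have hN := Northcott.finite_le (h := fun x : L => logHeight₁ x) (B * finrank ℚ L)
  have hT : {y : Fin n → L | ∀ a, y a ∈ {x : L | logHeight₁ x ≤ B * finrank ℚ L}}.Finite :=
    Set.Finite.pi' fun _ => hN
  have hpos : (0 : ℝ) < finrank ℚ L := by exact_mod_cast Module.finrank_pos
  refine hT.subset fun x hx a => ?_
  have h1 := h1_le_hA (fun a => φ (x a)) a
  rw [h1_eq, div_le_iff₀ hpos] at h1
  have hx' : hA (fun a => φ (x a)) ≤ B := hx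
  exact h1.trans (mul_le_mul_of_nonneg_right hx' hpos.le)

/-- a constant-height vector -/
theorem hA_zero_one {τ : Type} [Finite τ] (x : τ → Qbar) (h : ∀ a, x a = 0 ∨ x a = 1) :
    hA x = 0 := by
  classical
  have := Fintype.ofFinite τ
  refine le_antisymm ?_ (hA_nonneg x)
  refine (height_le_sum _).trans ?_
  refine (Finset.sum_nonpos fun o _ => ?_)
  cases o with
  | none =>
    show h1 1 ≤ 0
    rw [h1_one]
  | some a =>
    show h1 (x a) ≤ 0
    rcases h a with h | h
    · rw [h, h1_zero]
    · rw [h, h1_one]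

/-- the homogenised vectors -/
noncomputable def homV (V : Fin r → Fin n → Qbar) : Fin (r + 1) → Fin (n + 1) → Qbar :=
  Fin.cons (Fin.cons 1 (fun _ => 0)) (fun j => Fin.cons 0 (V j))

noncomputable def homU (u : Fin r → Qbarˣ) : Fin (r + 1) → Qbarˣ := Fin.cons 1 u

theorem homV_zero (V : Fin r → Fin n → Qbar) (j : Fin (r + 1)) (a : Fin (n + 1))
    (h : (j, a) ∉ TT r n) : homV V j a = 0 := by
  unfold homV
  refine Fin.cases (motive := fun j => (j, a) ∉ TT r n → (Fin.cons (Fin.cons 1 (fun _ => 0))
    (fun j => Fin.cons 0 (V j)) : Fin (r + 1) → Fin (n + 1) → Qbar) j a = 0) ?_ ?_ j h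
  · intro h
    rw [Fin.cons_zero]
    refine Fin.cases (motive := fun a => ((0 : Fin (r + 1)), a) ∉ TT r n →
      (Fin.cons 1 (fun _ => 0) : Fin (n + 1) → Qbar) a = 0) ?_ ?_ a h
    · intro h
      exact absurd (Or.inl rfl) h
    · intro a _
      rw [Fin.cons_succ]
  · intro j h
    rw [Fin.cons_succ]
    refine Fin.cases (motive := fun a => (j.succ, a) ∉ TT r n →
      (Fin.cons 0 (V j) : Fin (n + 1) → Qbar) a = 0) ?_ ?_ a h
    · intro _
      rw [Fin.cons_zero]
    · intro a h
      exact absurd (Or.inr ⟨Fin.succ_ne_zero _, Fin.succ_ne_zero _⟩) h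

theorem psum_hom (u : Fin r → Qbarˣ) (V : Fin r → Fin n → Qbar) :
    SK.psum Finset.univ (homU u) (homV V) =
      (Fin.cons 1 (fun a => ∑ j, (u j : Qbar) * V j a) : Fin (n + 1) → Qbar) := by
  funext a
  unfold SK.psum
  rw [Fin.sum_univ_succ]
  refine Fin.cases ?_ (fun a => ?_) a
  · simp [homU, homV]
  · simp [homU, homV]

theorem hA_le_cons (x : Fin n → Qbar) :
    hA x ≤ absLogHeight (Fin.cons 1 x : Fin (n + 1) → Qbar) := by
  have h := absLogHeight_comp_le (fun o : Option (Fin n) => o.elim (0 : Fin (n + 1)) Fin.succ)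
    (Fin.cons 1 x : Fin (n + 1) → Qbar)
  have e : (Fin.cons 1 x : Fin (n + 1) → Qbar) ∘
      (fun o : Option (Fin n) => o.elim (0 : Fin (n + 1)) Fin.succ) =
      fun o : Option (Fin n) => o.elim (1 : Qbar) x := by
    funext o
    cases o with
    | none => simp
    | some a => simp
  rw [e] at h
  exact h

theorem cons_le_hA (x : Fin n → Qbar) :
    absLogHeight (Fin.cons 1 x : Fin (n + 1) → Qbar) ≤ hA x := by
  have h := absLogHeight_comp_le (fun a : Fin (n + 1) =>
    (Fin.cases none some a : Option (Fin n))) (fun o : Option (Fin n) => o.elim (1 : Qbar) x)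
  have e : (fun o : Option (Fin n) => o.elim (1 : Qbar) x) ∘ (fun a : Fin (n + 1) =>
      (Fin.cases none some a : Option (Fin n))) = (Fin.cons 1 x : Fin (n + 1) → Qbar) := by
    funext a
    refine Fin.cases ?_ (fun a => ?_) a
    · simp
    · simp
  rw [e] at h
  exact h

/-- zero coordinates do not count -/
theorem height_pad {ι τ : Type} [Fintype ι] [Finite τ] (x : ι → Qbar) (hx : x ≠ 0) (f : τ → ι)
    (g : τ → Fin 2) : absLogHeight (fun t => x (f t) * ![(0 : Qbar), 1] (g t)) ≤
      absLogHeight x := by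
  have h0 : ![(0 : Qbar), 1] ≠ 0 := by
    intro h
    have := congrFun h 1
    simp at this
  have h1 := height_mul_le x ![(0 : Qbar), 1] hx h0 f g
  have h2 : absLogHeight ![(0 : Qbar), 1] ≤ 0 := by
    refine (height_le_sum _).trans ?_
    rw [Fin.sum_univ_two]
    simp [h1_zero, h1_one]
  linarith

theorem hV_homV (V : Fin r → Fin n → Qbar) : hV (homV V) ≤ hAV V := by
  classical
  have h0 : (fun o : Option (Fin r × Fin n) => o.elim (1 : Qbar) (fun p => V p.1 p.2)) ≠ 0 := by
    intro h
    have := congrFun h none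
    simp at this
  have h := height_pad (fun o : Option (Fin r × Fin n) => o.elim (1 : Qbar) (fun p => V p.1 p.2))
    h0 (τ := Fin (r + 1) × Fin (n + 1))
    (fun p => (Fin.cases none (fun j => Fin.cases none (fun a => some (j, a)) p.2) p.1))
    (fun p => (Fin.cases (Fin.cases 1 (fun _ => 0) p.2) (fun _ => Fin.cases 0 (fun _ => 1) p.2)
      p.1))
  have e : (fun p : Fin (r + 1) × Fin (n + 1) => homV V p.1 p.2) = fun p =>
      (fun o : Option (Fin r × Fin n) => o.elim (1 : Qbar) (fun p => V p.1 p.2))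
        (Fin.cases none (fun j => Fin.cases none (fun a => some (j, a)) p.2) p.1) *
      ![(0 : Qbar), 1] (Fin.cases (Fin.cases 1 (fun _ => 0) p.2)
        (fun _ => Fin.cases 0 (fun _ => 1) p.2) p.1) := by
    funext p
    obtain ⟨j, a⟩ := p
    refine Fin.cases ?_ (fun j => ?_) j
    · refine Fin.cases ?_ (fun a => ?_) a
      · simp [homV]
      · simp [homV]
    · refine Fin.cases ?_ (fun a => ?_) a
      · simp [homV]
      · simp [homV]
  unfold hV
  rw [e]
  exact h

end Pool.Agent.Y215.AF
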