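import Mathlib
import Pool.Agent.Y215.AF.Hts

set_option autoImplicit false
set_option linter.unusedSectionVars false
set_option linter.unusedSimpArgs false

/-! # Sums of elements of a group of finite rank on affine varieties: height bound -/

namespace Pool.Agent.Y215.AF

open Finset MvPolynomial IsDedekindDomain NumberField Height Module
open Pool.Agent.Helper259.AbsHt Pool.Agent.TH409.SH Pool.Agent.Y215.SK Pool.Agent.W235.RM
open Pool.Agent.H533R3.SL (cur)
open Pool.Agent.Y215.SP (epsn epsn_pos)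

variable {K : Type} [Field K] [NumberField K] {ι κ : Type} {n : ℕ}
  (F : ι → MvPolynomial (Fin n) (𝓞 K)) (G : κ → MvPolynomial (Fin n) (𝓞 K))

/-- finitely many equations for `V'` -/
theorem fin_kappa : ∃ s : Finset κ, ∀ (L : Type) [Field L] [Algebra K L] (x : Fin n → L),
    (∃ l, eval₂ ((algebraMap K L).comp (algebraMap (𝓞 K) K)) x (G l) ≠ 0) →
    ∃ l ∈ s, eval₂ ((algebraMap K L).comp (algebraMap (𝓞 K) K)) x (G l) ≠ 0 := by
  classical
  obtain ⟨t, ht, hspan⟩ := (Submodule.fg_span_iff_fg_span_finset_subset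
    (Set.range fun l => map (algebraMap (𝓞 K) K) (G l))).1
    (IsNoetherian.noetherian (R := MvPolynomial (Fin n) K) _)
  obtain ⟨s, hs⟩ : ∃ s : Finset κ, ∀ p ∈ t, ∃ l ∈ s, map (algebraMap (𝓞 K) K) (G l) = p := by
    choose f hf using fun p : t => ht p.2
    refine ⟨Finset.univ.image f, fun p hp => ⟨f ⟨p, hp⟩, ?_, hf ⟨p, hp⟩⟩⟩
    exact Finset.mem_image_of_mem _ (Finset.mem_univ _)
  refine ⟨s, fun L _ _ x ⟨l, hl⟩ => ?_⟩
  by_contra hcon
  push Not at hcon
  apply hl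
  have hmap : ∀ p : MvPolynomial (Fin n) (𝓞 K), aeval x (map (algebraMap (𝓞 K) K) p)
        = eval₂ ((algebraMap K L).comp (algebraMap (𝓞 K) K)) x p := by
    intro p
    rw [aeval_def, eval₂_map]
  have h1 : map (algebraMap (𝓞 K) K) (G l) ∈ Ideal.span (t : Set (MvPolynomial (Fin n) K)) := by
    have h2 : map (algebraMap (𝓞 K) K) (G l) ∈
        Submodule.span (MvPolynomial (Fin n) K) (Set.range fun l => map (algebraMap (𝓞 K) K) (G l)) :=
      Submodule.subset_span ⟨l, rfl⟩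
    rw [hspan] at h2
    exact h2
  have h3 : Ideal.span (t : Set (MvPolynomial (Fin n) K)) ≤
      RingHom.ker (aeval x : MvPolynomial (Fin n) K →ₐ[K] L) := by
    rw [Ideal.span_le]
    intro p hp
    obtain ⟨l', hl', rfl⟩ := hs p hp
    show aeval x _ = 0
    rw [hmap]
    exact hcon l' hl'
  have h4 := h3 h1
  rw [← hmap]
  exact h4

theorem cons_hom {L : Type} [Field L] [Algebra K L] (d : ℕ) (p : MvPolynomial (Fin n) (𝓞 K))
    (hp : p.totalDegree ≤ d) (x : Fin n → L) :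
    aeval (Fin.cons 1 x : Fin (n + 1) → L) (hK d p) =
      eval₂ ((algebraMap K L).comp (algebraMap (𝓞 K) K)) x p := by
  have h := hK_eval d p hp (1 : L) x
  simp only [one_mul, one_pow] at h
  exact h

theorem cons_one_ne {L : Type} [Field L] (x : Fin n → L) : (Fin.cons 1 x : Fin (n + 1) → L) ≠ 0 := by
  intro h
  have := congrFun h 0
  simp at this

variable [Finite ι]

/-- one equation -/
theorem onOff_cons {L : Type} [Field L] [Algebra K L] {N : ℕ} (e : Fin N ≃ ι) (d d' : ℕ) (hd : ∀ i, (F i).totalDegree ≤ d) (l0 : κ)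
    (hd' : (G l0).totalDegree ≤ d') (x : Fin n → L)
    (h1 : ∀ i, eval₂ ((algebraMap K L).comp (algebraMap (𝓞 K) K)) x (F i) = 0)
    (h2 : eval₂ ((algebraMap K L).comp (algebraMap (𝓞 K) K)) x (G l0) ≠ 0) :
    OnOff (fun i => hK d (F (e i))) (X 0 * hK d' (G l0)) (Fin.cons 1 x : Fin (n + 1) → L) := by
  refine ⟨cons_one_ne x, fun i => ?_, ?_⟩
  · rw [cons_hom d _ (hd _)]
    exact h1 _
  · rw [map_mul, aeval_X, Fin.cons_zero, one_mul, cons_hom d' _ hd']
    exact h2

theorem hG_pattern (hn : ¬ HasLaurent F G) {N : ℕ} (e : Fin N ≃ ι) (d d' : ℕ)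
    (hd : ∀ i, (F i).totalDegree ≤ d) (l0 : κ)
    (hd' : (G l0).totalDegree ≤ d') (r : ℕ) :
    ∀ (L : Type) [Field L] [Algebra K L] (c : Fin (r + 1) → Fin (n + 1) → L) (l : Fin (r + 1) → ℕ),
        (∀ j a, (j, a) ∉ TT r n → c j a = 0) →
        (∀ i, MvPolynomial.aeval (cur c l) (hK d (F (e i))) = 0) →
        (∃ i i', cur c l i * Polynomial.C (∑ j, c j i') ≠
          cur c l i' * Polynomial.C (∑ j, c j i)) →
        MvPolynomial.aeval (fun i => ∑ j, c j i) (X 0 * hK d' (G l0)) = 0 := by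
  intro L _ _ c l hT hz hc
  by_contra hne
  refine hn (laurent_of_cur F G d hd d' l0 hd' L c l hT (fun i => ?_) hc hne)
  have := hz (e.symm i)
  rwa [Equiv.apply_symm_apply] at this

theorem hull_one (hn : ¬ HasLaurent F G) (l0 : κ) [Algebra K Qbar] (r : ℕ) (Γ : Subgroup Qbarˣ)
    (hΓ : Γ.FG) : ∃ C : ℝ, 0 ≤ C ∧
    ∀ (u : Fin r → Qbarˣ) (V : Fin r → Fin n → Qbar), (∀ j, u j ∈ DivHull Γ) →
      (∀ i, eval₂ ((algebraMap K Qbar).comp (algebraMap (𝓞 K) K))
        (fun a => ∑ j, (u j : Qbar) * V j a) (F i) = 0) →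
      eval₂ ((algebraMap K Qbar).comp (algebraMap (𝓞 K) K))
        (fun a => ∑ j, (u j : Qbar) * V j a) (G l0) ≠ 0 →
      hA (fun a => ∑ j, (u j : Qbar) * V j a) ≤ C * (1 + hAV V) := by
  classical
  have := Fintype.ofFinite ι
  let e : Fin (Fintype.card ι) ≃ ι := (Fintype.equivFin ι).symm
  obtain ⟨d, hd⟩ : ∃ d : ℕ, ∀ i, (F i).totalDegree ≤ d :=
    ⟨∑ i, (F i).totalDegree, fun i =>
      Finset.single_le_sum (f := fun i => (F i).totalDegree) (fun _ _ => Nat.zero_le _)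
        (Finset.mem_univ i)⟩
  obtain ⟨C, hC⟩ := mult_boundT (fun i => hK d (F (e i))) (fun i => ⟨d, hK_homog d _ (hd _)⟩)
    (X 0 * hK (G l0).totalDegree (G l0))
    ⟨_, (isHomogeneous_X K (0 : Fin (n + 1))).mul (hK_homog _ _ le_rfl)⟩ (TT r n)
    (hG_pattern F G hn e d (G l0).totalDegree hd l0 le_rfl r) Γ hΓ
  refine ⟨|C| + (r + 1) + 1, by positivity, fun u V hu h1 h2 => ?_⟩
  have hx := psum_hom u V
  have hon : OnOff (fun i => hK d (F (e i))) (X 0 * hK (G l0).totalDegree (G l0))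
      (SK.psum Finset.univ (homU u) (homV V)) := by
    rw [hx]
    exact onOff_cons F G e d _ hd l0 le_rfl _ h1 h2
  have hu' : ∀ j, homU u j ∈ DivHull Γ := by
    intro j
    refine Fin.cases ?_ (fun j => ?_) j
    · refine ⟨1, one_pos, ?_⟩
      rw [pow_one]
      exact Γ.one_mem
    · exact hu j
  obtain ⟨J, hJ, hh⟩ := hC (homU u) (homV V) (fun j a h => homV_zero V j a h) hu' hon
  obtain ⟨c, hc, hc2⟩ := good_prop J (homU u) (homV V) hJ hon.1
  have h3 := psum_height J (homU u) (homV V)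
  rw [hc2, absLogHeight_smul _ hc, hx] at h3
  have h4 := hA_le_cons (fun a => ∑ j, (u j : Qbar) * V j a)
  have h5 := hV_homV V
  have h6 : 0 ≤ hV (homV V) := absLogHeight_nonneg _
  have h7 : C * (1 + hV (homV V)) ≤ |C| * (1 + hAV V) :=
    mul_le_mul (le_abs_self C) (by linarith) (by linarith) (abs_nonneg C)
  have h8 : (0 : ℝ) ≤ r := Nat.cast_nonneg r
  have h9 := hAV_nonneg V
  push_cast at h3
  nlinarith [mul_nonneg h8 h9]

theorem hullHeights (hn : ¬ HasLaurent F G) : HullHeights F G := by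
  classical
  intro _ r Γ hΓ
  obtain ⟨s, hs⟩ := fin_kappa G
  choose C hC0 hC using fun l : κ => hull_one F G hn l r Γ hΓ
  refine ⟨∑ l ∈ s, C l, fun u V hu hx => ?_⟩
  obtain ⟨l, hl, h2⟩ := hs Qbar _ hx.2
  refine (hC l u V hu hx.1 h2).trans ?_
  have h9 := hAV_nonneg V
  exact mul_le_mul_of_nonneg_right (Finset.single_le_sum (f := C) (fun l _ => hC0 l) hl)
    (by linarith)

/-- the explicit `ε` -/
noncomputable def eps (d r : ℕ) : ℝ := epsn ((d + 1) ^ (r + 1)) / d / 2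

theorem eps_pos (d r : ℕ) (hd : 1 ≤ d) : 0 < eps d r :=
  half_pos (div_pos (epsn_pos _ (Nat.one_le_pow _ _ (by omega))) (by exact_mod_cast hd))

theorem near_one (hn : ¬ HasLaurent F G) (l0 : κ) (d : ℕ) (hd1 : 1 ≤ d)
    (hd : ∀ i, (F i).totalDegree ≤ d) [Algebra K Qbar] (r : ℕ) (Γ : Subgroup Qbarˣ)
    (hΓ : Γ.FG) : ∃ (A : ℝ) (e : ℕ), 0 ≤ A ∧ ∀ V : Fin r → Fin n → Qbar,
      (nearPts F (fun _ : Unit => G l0) Γ (eps d r) V).Finite ∧
        ((nearPts F (fun _ : Unit => G l0) Γ (eps d r) V).ncard : ℝ) ≤ A * (1 + hAV V) ^ e := by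
  classical
  have := Fintype.ofFinite ι
  let e : Fin (Fintype.card ι) ≃ ι := (Fintype.equivFin ι).symm
  obtain ⟨A, m, hA⟩ := mix_finiteT (r := r + 1) (fun i => hK d (F (e i))) d hd1
    (fun i => ⟨d, le_rfl, hK_homog d _ (hd _)⟩)
    (X 0 * hK (G l0).totalDegree (G l0))
    ⟨_, (isHomogeneous_X K (0 : Fin (n + 1))).mul (hK_homog _ _ le_rfl)⟩ (TT r n)
    (hG_pattern F G hn e d (G l0).totalDegree hd l0 le_rfl r) Γ hΓ
  refine ⟨|A|, m, abs_nonneg _, fun V => ?_⟩
  obtain ⟨hfin, hcard⟩ := hA (homV V) (fun j a h => homV_zero V j a h)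
  let θ : (Fin n → Qbar) → Projectivization Qbar (Fin (n + 1) → Qbar) := fun x =>
    Projectivization.mk Qbar (Fin.cons 1 x : Fin (n + 1) → Qbar) (cons_one_ne x)
  have hmaps : ∀ x ∈ nearPts F (fun _ : Unit => G l0) Γ (eps d r) V,
      θ x ∈ mixPts (fun i => hK d (F (e i))) (X 0 * hK (G l0).totalDegree (G l0)) Γ
        (epsn ((d + 1) ^ (r + 1)) / d / 2) (homV V) := by
    rintro x ⟨⟨h1, l, h2⟩, u, s, hu, hs, hx⟩
    have h2' : eval₂ ((algebraMap K Qbar).comp (algebraMap (𝓞 K) K)) x (G l0) ≠ 0 := h2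
    have e1 : SK.psum Finset.univ (homU u) (fun j a =>
        (Fin.cons 1 s : Fin (r + 1) → Qbar) j * homV V j a) =
        (Fin.cons 1 x : Fin (n + 1) → Qbar) := by
      funext a
      unfold SK.psum
      rw [Fin.sum_univ_succ]
      refine Fin.cases ?_ (fun a => ?_) a
      · simp [homU, homV]
      · simp only [homU, homV, Fin.cons_zero, Fin.cons_succ, mul_zero, zero_add]
        rw [hx a]
        exact Finset.sum_congr rfl fun j _ => by ring
    refine ⟨homU u, (Fin.cons 1 s : Fin (r + 1) → Qbar), ?_, ?_, ?_, ?_, ?_⟩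
    · intro j
      refine Fin.cases ?_ (fun j => ?_) j
      · refine ⟨1, one_pos, ?_⟩
        rw [pow_one]
        exact Γ.one_mem
      · exact hu j
    · exact lt_of_le_of_lt (cons_le_hA s) hs
    · rw [e1]
      exact onOff_cons F G e d _ hd l0 le_rfl _ h1 h2'
    · rw [e1]
      exact cons_one_ne x
    · show Projectivization.mk Qbar (Fin.cons 1 x : Fin (n + 1) → Qbar) (cons_one_ne x) = _
      congr 1
      exact e1.symm
  have hinj : Set.InjOn θ (nearPts F (fun _ : Unit => G l0) Γ (eps d r) V) := by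
    intro x _ y _ hxy
    obtain ⟨c, hc⟩ := (Projectivization.mk_eq_mk_iff' Qbar _ _ (cons_one_ne x)
      (cons_one_ne y)).1 hxy
    have h0 := congrFun hc 0
    rw [Pi.smul_apply, Fin.cons_zero, Fin.cons_zero, smul_eq_mul, mul_one] at h0
    rw [h0, one_smul] at hc
    funext a
    have := congrFun hc a.succ
    rw [Fin.cons_succ, Fin.cons_succ] at this
    exact this.symm
  have hfin' : (nearPts F (fun _ : Unit => G l0) Γ (eps d r) V).Finite :=
    Set.Finite.of_injOn hmaps hinj hfin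
  refine ⟨hfin', ?_⟩
  have h1 := Set.ncard_le_ncard_of_injOn θ hmaps hinj hfin
  have h2 : ((nearPts F (fun _ : Unit => G l0) Γ (eps d r) V).ncard : ℝ) ≤
      A * (1 + hV (homV V)) ^ m := le_trans (by exact_mod_cast h1) hcard
  refine h2.trans ?_
  have h3 : 0 ≤ hV (homV V) := absLogHeight_nonneg _
  have h4 := hV_homV V
  exact mul_le_mul (le_abs_self A) (pow_le_pow_left₀ (by linarith) (by linarith) _)
    (by positivity) (abs_nonneg _)

theorem hullNear (hn : ¬ HasLaurent F G) : HullNear eps F G := by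
  classical
  intro d hd1 hd _ r Γ hΓ
  obtain ⟨s, hs⟩ := fin_kappa G
  choose A e hA0 hA using fun l : κ => near_one F G hn l d hd1 hd r Γ hΓ
  refine ⟨∑ l ∈ s, A l, s.sup e, fun V => ?_⟩
  have hsub : nearPts F G Γ (eps d r) V ⊆
      ⋃ l ∈ s, nearPts F (fun _ : Unit => G l) Γ (eps d r) V := by
    rintro x ⟨⟨h1, h2⟩, h3⟩
    obtain ⟨l, hl, h4⟩ := hs Qbar _ h2
    rw [Set.mem_iUnion₂]
    exact ⟨l, hl, ⟨h1, (), h4⟩, h3⟩
  have hfin : (⋃ l ∈ s, nearPts F (fun _ : Unit => G l) Γ (eps d r) V).Finite :=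
    Set.Finite.biUnion s.finite_toSet fun l _ => (hA l V).1
  refine ⟨hfin.subset hsub, ?_⟩
  have h1 : (nearPts F G Γ (eps d r) V).ncard ≤
      ∑ l ∈ s, (nearPts F (fun _ : Unit => G l) Γ (eps d r) V).ncard :=
    (Set.ncard_le_ncard hsub hfin).trans (Finset.set_ncard_biUnion_le s _)
  have h2 : ((nearPts F G Γ (eps d r) V).ncard : ℝ) ≤
      ∑ l ∈ s, ((nearPts F (fun _ : Unit => G l) Γ (eps d r) V).ncard : ℝ) := by
    exact_mod_cast h1
  refine h2.trans ?_
  rw [Finset.sum_mul]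
  refine Finset.sum_le_sum fun l hl => (hA l V).2.trans ?_
  have h9 := hAV_nonneg V
  exact mul_le_mul_of_nonneg_left
    (pow_le_pow_right₀ (by linarith) (Finset.le_sup hl)) (hA0 l)

end Pool.Agent.Y215.AF
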