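import Mathlib
import Pool.Agent.Y215.AF.Hull
import Pool.Agent.H39R3.Tor.SUnit

set_option autoImplicit false
set_option linter.unusedSectionVars false
set_option linter.unusedSimpArgs false

/-! # Sums of units on affine varieties: the equivalence -/

namespace Pool.Agent.Y215.AF

open Finset MvPolynomial IsDedekindDomain NumberField Height Module
open Pool.Agent.Helper259.AbsHt Pool.Agent.TH409.SH Pool.Agent.Y215.SK Pool.Agent.W235.RM
open Pool.Agent.H533R3.SL (cur)
open Pool.Agent.H159R3.Exp (Laur ExpCurvesIn FinitelyManyIntegral)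

variable {K : Type} [Field K] [NumberField K] {ι κ : Type} {n : ℕ}
  (σ : K →+* ℂ) (F : ι → MvPolynomial (Fin n) (𝓞 K)) (G : κ → MvPolynomial (Fin n) (𝓞 K))

theorem rational_of_heights (h : HullHeights F G) : HullRational F G := by
  intro _ r Γ hΓ L _ _ φ B
  obtain ⟨C, hC⟩ := h r Γ hΓ
  refine (northcott_affQ L φ (|C| * (1 + B))).subset ?_
  rintro x ⟨hx, u, V, hu, hV, hxe⟩
  have e : (fun a => φ (x a)) = fun a => ∑ j, (u j : Qbar) * V j a := funext hxe
  have h1 : OffPt F G (fun a => ∑ j, (u j : Qbar) * V j a) := by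
    rw [← e]
    exact hx
  have h2 := hC u V hu h1
  rw [← e] at h2
  refine h2.trans ?_
  have h9 := hAV_nonneg V
  exact mul_le_mul (le_abs_self C) (by linarith) (by linarith) (abs_nonneg _)

/-- the image of the group of `S`-units -/
noncomputable def SU {L : Type} [Field L] [NumberField L] (φ : L →+* Qbar)
    (S : Set (HeightOneSpectrum (𝓞 L))) : Subgroup Qbarˣ :=
  (S.unit L).map (Units.map (φ : L →* Qbar))

theorem SU_fg {L : Type} [Field L] [NumberField L] (φ : L →+* Qbar)
    (S : Set (HeightOneSpectrum (𝓞 L))) (hS : S.Finite) : (SU φ S).FG := by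
  classical
  obtain ⟨t, ht⟩ := Pool.Agent.H39R3.Tor.sunit_fg L S hS
  refine ⟨t.image (Units.map (φ : L →* Qbar)), ?_⟩
  unfold SU
  rw [← ht, MonoidHom.map_closure, Finset.coe_image]

theorem offPt_map {L M : Type} [Field L] [Field M] [Algebra K L] (φ : L →+* M) (x : Fin n → L)
    (hx : OffPt F G x) :
    letI : Algebra K M := (φ.comp (algebraMap K L)).toAlgebra
    OffPt F G (fun a => φ (x a)) := by
  let _ : Algebra K M := (φ.comp (algebraMap K L)).toAlgebra
  have h : ∀ p : MvPolynomial (Fin n) (𝓞 K),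
      eval₂ ((algebraMap K M).comp (algebraMap (𝓞 K) K)) (fun a => φ (x a)) p =
        φ (eval₂ ((algebraMap K L).comp (algebraMap (𝓞 K) K)) x p) := by
    intro p
    rw [MvPolynomial.hom_eval₂]
    rfl
  refine ⟨fun i => ?_, ?_⟩
  · rw [h, hx.1, map_zero]
  · obtain ⟨l, hl⟩ := hx.2
    refine ⟨l, ?_⟩
    rw [h]
    exact (map_ne_zero φ).2 hl

/-- coordinates which are sums of units, as a sum of vectors -/
theorem unit_vectors {L : Type} [Field L] [NumberField L] (φ : L →+* Qbar)
    (S : Set (HeightOneSpectrum (𝓞 L))) (r : ℕ) (x : Fin n → L)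
    (hx : ∀ a, UnitSum S r (x a)) :
    ∃ (u : Fin (n * r) → Qbarˣ) (s : Fin (n * r) → Qbar), (∀ j, u j ∈ SU φ S) ∧
      (∀ j, s j = 0 ∨ s j = 1) ∧ ∀ a, φ (x a) = ∑ j, (u j : Qbar) * s j *
        (if (finProdFinEquiv.symm j).1 = a then (1 : Qbar) else 0) := by
  classical
  choose J u hu hxu using hx
  refine ⟨fun j => Units.map (φ : L →* Qbar) (u (finProdFinEquiv.symm j).1
    (finProdFinEquiv.symm j).2), fun j => if (finProdFinEquiv.symm j).2 ∈
      J (finProdFinEquiv.symm j).1 then 1 else 0, fun j => ?_, fun j => ?_, fun a => ?_⟩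
  · exact Subgroup.mem_map_of_mem _ (hu _ _)
  · by_cases h : (finProdFinEquiv.symm j).2 ∈ J (finProdFinEquiv.symm j).1
    · right
      exact if_pos h
    · left
      exact if_neg h
  · rw [← Equiv.sum_comp finProdFinEquiv, Fintype.sum_prod_type]
    simp only [Equiv.symm_apply_apply]
    rw [Finset.sum_eq_single a]
    · rw [hxu a, map_sum]
      simp only [if_true, mul_one, mul_ite, mul_zero]
      rw [← Finset.sum_filter]
      refine Finset.sum_congr ?_ fun j _ => rfl
      ext j
      simp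
    · intro b _ hb
      refine Finset.sum_eq_zero fun j _ => ?_
      rw [if_neg hb, mul_zero]
    · intro h
      exact absurd (Finset.mem_univ _) h

theorem sub_hull (Γ : Subgroup Qbarˣ) (u : Qbarˣ) (hu : u ∈ Γ) : u ∈ DivHull Γ :=
  ⟨1, one_pos, by rwa [pow_one]⟩

theorem exists_emb (L : Type) [Field L] [NumberField L] : Nonempty (L →+* Qbar) :=
  ⟨(IsAlgClosed.lift : L →ₐ[ℚ] Qbar).toRingHom⟩

theorem unitSum_of_rational (h : HullRational F G) : UnitSumFinite F G := by
  classical
  intro L _ _ _ S hS r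
  obtain ⟨φ⟩ := exists_emb L
  let _ : Algebra K Qbar := (φ.comp (algebraMap K L)).toAlgebra
  refine (h (n * r) (SU φ S) (SU_fg φ S hS) L φ 0).subset ?_
  rintro x ⟨hx, hu⟩
  refine ⟨offPt_map F G φ x hx, ?_⟩
  obtain ⟨u, s, h1, h2, h3⟩ := unit_vectors φ S r x hu
  refine ⟨u, fun j a => s j * (if (finProdFinEquiv.symm j).1 = a then (1 : Qbar) else 0),
    fun j => sub_hull _ _ (h1 j), ?_, fun a => ?_⟩
  · refine le_of_eq (hA_zero_one _ fun p => ?_)
    rcases h2 p.1 with h4 | h4
    · left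
      show s p.1 * _ = 0
      rw [h4, zero_mul]
    · show s p.1 * _ = 0 ∨ s p.1 * _ = 1
      rw [h4, one_mul]
      split_ifs
      · exact Or.inr rfl
      · exact Or.inl rfl
  · rw [h3 a]
    exact Finset.sum_congr rfl fun j _ => by ring

theorem unitSum_of_near [Finite ι] (h : HullNear eps F G) : UnitSumFinite F G := by
  classical
  have := Fintype.ofFinite ι
  intro L _ _ _ S hS r
  obtain ⟨φ⟩ := exists_emb L
  let _ : Algebra K Qbar := (φ.comp (algebraMap K L)).toAlgebra
  obtain ⟨d, hd1, hd⟩ : ∃ d : ℕ, 1 ≤ d ∧ ∀ i, (F i).totalDegree ≤ d :=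
    ⟨∑ i, (F i).totalDegree + 1, by omega, fun i => by
      have := Finset.single_le_sum (f := fun i => (F i).totalDegree) (fun _ _ => Nat.zero_le _)
        (Finset.mem_univ i)
      omega⟩
  obtain ⟨A, e, hA⟩ := h d hd1 hd (n * r) (SU φ S) (SU_fg φ S hS)
  obtain ⟨hfin, -⟩ := hA (fun j a => if (finProdFinEquiv.symm j).1 = a then (1 : Qbar) else 0)
  refine Set.Finite.of_injOn (f := fun (x : Fin n → L) a => φ (x a)) ?_ ?_ hfin
  · rintro x ⟨hx, hu⟩
    obtain ⟨u, s, h1, h2, h3⟩ := unit_vectors φ S r x hu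
    refine ⟨offPt_map F G φ x hx, u, s, fun j => sub_hull _ _ (h1 j), ?_, h3⟩
    rw [hA_zero_one s h2]
    exact eps_pos d _ hd1
  · intro x _ y _ hxy
    funext a
    exact φ.injective (congrFun hxy a)

theorem not_unitSum (h : HasLaurent F G) : ¬ UnitSumFinite F G := by
  classical
  obtain ⟨L, _, _, _, v, hv, hvF, ⟨l, hl⟩, k1, j1, hk1⟩ := h
  intro hU
  obtain ⟨e, Q, hQ⟩ := Laur.common v hv
  let S : Set (HeightOneSpectrum (𝓞 L)) :=
    (⋃ j, ⋃ l ∈ (Q j).support, (HeightOneSpectrum.Support (𝓞 L) ((Q j).coeff l) ∪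
      HeightOneSpectrum.Support (𝓞 L) (((Q j).coeff l)⁻¹))) ∪
      HeightOneSpectrum.Support (𝓞 L) (2⁻¹ : L)
  have hS : S.Finite := by
    refine Set.Finite.union (Set.finite_iUnion fun j => ?_) (HeightOneSpectrum.Support.finite _ _)
    exact Set.Finite.biUnion (Finset.finite_toSet _) fun l _ =>
      (HeightOneSpectrum.Support.finite _ _).union (HeightOneSpectrum.Support.finite _ _)
  have hmem : ∀ x : Lˣ, HeightOneSpectrum.Support (𝓞 L) (x : L) ⊆ S →
      HeightOneSpectrum.Support (𝓞 L) ((x : L)⁻¹) ⊆ S → x ∈ S.unit L := by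
    intro x hx hx' v hv
    have h1 : v.valuation L (x : L) ≤ 1 := by
      by_contra hcon
      exact hv (hx (not_le.mp hcon))
    have h2 : v.valuation L ((x : L)⁻¹) ≤ 1 := by
      by_contra hcon
      exact hv (hx' (not_le.mp hcon))
    refine le_antisymm h1 ?_
    rw [map_inv₀] at h2
    have h3 : v.valuation L (x : L) ≠ 0 := (Valuation.ne_zero_iff _).2 x.ne_zero
    exact (inv_le_one₀ (zero_lt_iff.2 h3)).1 h2
  have h20 : (2 : L) ≠ 0 := two_ne_zero
  have h2S : Units.mk0 (2 : L) h20 ∈ S.unit L := by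
    refine hmem _ ?_ ?_
    · intro v hv
      exfalso
      have h1 : (1 : WithZero (Multiplicative ℤ)) < v.valuation L (2 : L) := hv
      have h2 : v.valuation L (2 : L) ≤ 1 := by
        have h3 : v.valuation L (algebraMap (𝓞 L) L 2) ≤ 1 := v.valuation_le_one (2 : 𝓞 L)
        have h4 : algebraMap (𝓞 L) L 2 = 2 := map_ofNat _ _
        rwa [h4] at h3
      exact absurd h1 (not_lt.2 h2)
    · intro v hv
      exact Or.inr hv
  obtain ⟨D, hD⟩ : ∃ D : ℕ, ∀ j, (Q j).natDegree < D := by
    refine ⟨∑ j, (Q j).natDegree + 1, fun j => ?_⟩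
    have := Finset.single_le_sum (f := fun j => (Q j).natDegree) (fun _ _ => Nat.zero_le _)
      (Finset.mem_univ j)
    omega
  have hsum : ∀ (k : ℕ) a, UnitSum S D (v (2 ^ k) a) := by
    intro k a
    refine ⟨Finset.univ.filter fun i : Fin D => (Q a).coeff i ≠ 0, fun i =>
      if h : (Q a).coeff i ≠ 0 then Units.mk0 ((Q a).coeff i) h *
        ((Units.mk0 (2 : L) h20) ^ (k * (i : ℕ)) * ((Units.mk0 (2 : L) h20) ^ (k * e))⁻¹) else 1,
      fun i => ?_, ?_⟩
    · by_cases h : (Q a).coeff i ≠ 0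
      · simp only [dif_pos h]
        refine (S.unit L).mul_mem (hmem _ ?_ ?_) ((S.unit L).mul_mem
          ((S.unit L).pow_mem h2S _) ((S.unit L).inv_mem ((S.unit L).pow_mem h2S _)))
        · intro w hw
          exact Or.inl (Set.mem_iUnion.2 ⟨a, Set.mem_biUnion (Polynomial.mem_support_iff.2 h)
            (Or.inl hw)⟩)
        · intro w hw
          exact Or.inl (Set.mem_iUnion.2 ⟨a, Set.mem_biUnion (Polynomial.mem_support_iff.2 h)
            (Or.inr hw)⟩)
      · simp only [dif_neg h]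
        exact (S.unit L).one_mem
    · rw [hQ _ (pow_ne_zero _ h20) a, Polynomial.eval_eq_sum_range' (hD a), Finset.sum_range,
        Finset.sum_div, Finset.sum_filter]
      refine Finset.sum_congr rfl fun i _ => ?_
      by_cases h : (Q a).coeff i ≠ 0
      · rw [if_pos h]
        simp only [dif_pos h]
        simp only [Units.val_mul, Units.val_mk0, Units.val_pow_eq_pow_val, Units.val_inv_eq_inv_val]
        rw [← pow_mul, ← pow_mul, div_eq_mul_inv, mul_assoc]
      · rw [if_neg h]
        have h' : (Q a).coeff i = 0 := not_not.1 h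
        rw [h', zero_mul, zero_div]
  have hfin := hU L S hS D
  -- zeros
  have hG0 : {m : ℕ | eval₂ ((algebraMap K L).comp (algebraMap (𝓞 K) K)) (v (2 ^ m)) (G l) =
      0}.Finite :=
    (Laur.eval₂ ((algebraMap K L).comp (algebraMap (𝓞 K) K)) v hv (G l)).finite_zeros
      ⟨1, one_ne_zero, hl⟩
  have hfib : ∀ x : Fin n → L, {m : ℕ | v (2 ^ m) = x}.Finite := by
    intro x
    have h1 : Laur fun t => v t j1 + (-(x j1)) := (hv j1).add (Laur.const _)
    refine (h1.finite_zeros ?_).subset ?_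
    · by_contra hcon
      push Not at hcon
      have h2 := hcon (2 ^ k1) (pow_ne_zero _ h20)
      have h3 := hcon 1 one_ne_zero
      apply hk1
      linear_combination h2 - h3
    · intro m hm
      have h2 : v (2 ^ m) = x := hm
      show v (2 ^ m) j1 + (-(x j1)) = 0
      rw [h2, add_neg_cancel]
  have hall : (Set.univ : Set ℕ) ⊆ {m : ℕ | eval₂ ((algebraMap K L).comp (algebraMap (𝓞 K) K))
      (v (2 ^ m)) (G l) = 0} ∪
      ⋃ x ∈ {x : Fin n → L | OffPt F G x ∧ ∀ a, UnitSum S D (x a)}, {m : ℕ | v (2 ^ m) = x} := by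
    intro m _
    by_cases h : eval₂ ((algebraMap K L).comp (algebraMap (𝓞 K) K)) (v (2 ^ m)) (G l) = 0
    · exact Or.inl h
    · right
      rw [Set.mem_iUnion₂]
      exact ⟨v (2 ^ m), ⟨⟨fun i => hvF i _ (pow_ne_zero _ h20), l, h⟩, hsum m⟩, rfl⟩
  exact Set.infinite_univ ((hG0.union (hfin.biUnion fun x _ => hfib x)).subset hall)

/-- **the equivalence** -/
theorem tfaeU [Finite ι] : List.TFAE [ExpCurvesIn σ F G, GmCurvesIn σ F G, HullHeights F G,
    HullRational F G, HullNear eps F G, UnitSumFinite F G] := by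
  have h0 := tfae σ F G
  tfae_have 1 ↔ 2 := h0.out 0 1
  tfae_have 2 → 3 := fun h => hullHeights F G fun h2 => not_gm_of_hasLaurent σ F G h2 h
  tfae_have 2 → 5 := fun h => hullNear F G fun h2 => not_gm_of_hasLaurent σ F G h2 h
  tfae_have 3 → 4 := rational_of_heights F G
  tfae_have 4 → 6 := unitSum_of_rational F G
  tfae_have 5 → 6 := unitSum_of_near F G
  tfae_have 6 → 1 := fun h => by
    by_contra h2
    exact not_unitSum F G (hasLaurent_of_exp F G σ h2) h
  tfae_finish

end Pool.Agent.Y215.AF
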