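import Mathlib
import Pool.Agent.Y215.AF.Main
import Pool.Agent.Y215.AF.LogDefs
import Pool.Agent.Y215.AF.LogHyp

set_option autoImplicit false
set_option linter.unusedSectionVars false
set_option linter.unusedSimpArgs false

/-! # Sums of elements of a group of finite rank on affine varieties off a hypersurface: proofs -/

namespace Pool.Agent.Y215.AF

open Finset MvPolynomial IsDedekindDomain NumberField Height Module
open Pool.Agent.Helper259.AbsHt Pool.Agent.Y215.SK Pool.Agent.W235.RM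
open Pool.Agent.H533R3.SL (cur)
open Pool.Agent.Y215.SP (epsn epsn_pos)

variable {k : Type} [Field k] {N n : ℕ}

/-- all nonconstant curves with `r` terms lie on `G = 0` -/
def CurCond (F : Fin N → MvPolynomial (Fin n) k) (d : ℕ) (G : MvPolynomial (Fin n) k) (r : ℕ) :
    Prop :=
  ∀ (L : Type) [Field L] [Algebra k L] (c : Fin r → Fin n → L) (l : Fin (r + 1) → ℕ),
    (∀ i, aeval (cur (homC c) l) (hmg d (F i)) = 0) →
    (∃ i i', cur (homC c) l i * Polynomial.C (∑ j, homC c j i') ≠
      cur (homC c) l i' * Polynomial.C (∑ j, homC c j i)) →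
    aeval (fun i => ∑ j, c j i) G = 0

theorem cur_smul {L : Type} [CommRing L] {r : ℕ} (s : L) (c : Fin r → Fin (n + 1) → L)
    (l : Fin r → ℕ) (i : Fin (n + 1)) :
    cur (fun j i => s * c j i) l i = Polynomial.C s * cur c l i := by
  unfold cur
  rw [Finset.mul_sum]
  refine Finset.sum_congr rfl fun j _ => ?_
  rw [Polynomial.C_mul]
  ring

theorem pattern_eq {L : Type} [Field L] {r : ℕ} (c : Fin (r + 1) → Fin (n + 1) → L)
    (hT : ∀ j a, (j, a) ∉ TT r n → c j a = 0) (h0 : c 0 0 ≠ 0) :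
    c = fun j i => c 0 0 * homC (fun j a => c (Fin.succ j) (Fin.succ a) / c 0 0) j i := by
  funext j i
  refine Fin.cases ?_ (fun j => ?_) j
  · refine Fin.cases ?_ (fun i => ?_) i
    · simp [homC]
    · rw [hT 0 i.succ (by
        rintro (h | h)
        · exact Fin.succ_ne_zero _ (congrArg Prod.snd h)
        · exact h.1 rfl)]
      simp [homC]
  · refine Fin.cases ?_ (fun i => ?_) i
    · rw [hT j.succ 0 (by
        rintro (h | h)
        · exact Fin.succ_ne_zero _ (congrArg Prod.fst h)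
        · exact h.2 rfl)]
      simp [homC]
    · simp only [homC, Fin.cons_succ]
      rw [mul_div_cancel₀ _ h0]

theorem pattern_cond (F : Fin N → MvPolynomial (Fin n) k) (d d' : ℕ)
    (hd : ∀ i, (F i).totalDegree ≤ d) (G : MvPolynomial (Fin n) k) (hd' : G.totalDegree ≤ d')
    (r : ℕ) (hC : CurCond F d G r) :
    ∀ (L : Type) [Field L] [Algebra k L] (c : Fin (r + 1) → Fin (n + 1) → L) (l : Fin (r + 1) → ℕ),
        (∀ j a, (j, a) ∉ TT r n → c j a = 0) →
        (∀ i, MvPolynomial.aeval (cur c l) (hmg d (F i)) = 0) →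
        (∃ i i', cur c l i * Polynomial.C (∑ j, c j i') ≠
          cur c l i' * Polynomial.C (∑ j, c j i)) →
        MvPolynomial.aeval (fun i => ∑ j, c j i) (X 0 * hmg d' G) = 0 := by
  intro L _ _ c l hT hz hc
  by_contra hne
  have hc0 : ∑ j, c j 0 = c 0 0 := by
    refine Finset.sum_eq_single 0 (fun j _ hj => hT j 0 ?_) (fun h => absurd (Finset.mem_univ _) h)
    rintro (h | h)
    · exact hj (congrArg Prod.fst h)
    · exact h.2 rfl
  rw [map_mul, aeval_X, hc0] at hne
  have h0 : c 0 0 ≠ 0 := left_ne_zero_of_mul hne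
  have hne := right_ne_zero_of_mul hne
  obtain ⟨s, hs⟩ : ∃ s, s = c 0 0 := ⟨_, rfl⟩
  have hp := pattern_eq c hT h0
  rw [← hs] at hp h0
  obtain ⟨c', hc'⟩ : ∃ c' : Fin r → Fin n → L,
    c' = fun j a => c (Fin.succ j) (Fin.succ a) / s := ⟨_, rfl⟩
  rw [← hc'] at hp
  have hcur : cur c l = fun i => Polynomial.C s * cur (homC c') l i := by
    funext i
    have h1 := cur_smul s (homC c') l i
    rw [← hp] at h1
    exact h1
  have hsum : ∀ i, ∑ j, c j i = s * ∑ j, homC c' j i := by
    intro i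
    rw [Finset.mul_sum]
    refine Finset.sum_congr rfl fun j _ => ?_
    exact congrFun (congrFun hp j) i
  have hCs : (Polynomial.C s : Polynomial L) ≠ 0 := Polynomial.C_ne_zero.2 h0
  have h1 := hC L c' l (fun i => by
    have h2 := hz i
    rw [hcur, aeval_hom_smul _ (hmg_homog d (F i) (hd i))] at h2
    exact (mul_eq_zero.1 h2).resolve_left (pow_ne_zero _ hCs)) (by
    obtain ⟨i, i', h3⟩ := hc
    refine ⟨i, i', fun h4 => h3 ?_⟩
    rw [hcur, hsum, hsum, Polynomial.C_mul, Polynomial.C_mul]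
    show Polynomial.C s * cur (homC c') l i * _ = Polynomial.C s * cur (homC c') l i' * _
    linear_combination Polynomial.C s * Polynomial.C s * h4)
  apply hne
  have h5 : (fun i => ∑ j, c j i) =
      (Fin.cons s (fun a => s * ∑ j, c' j a) : Fin (n + 1) → L) := by
    funext i
    rw [hsum]
    have h6 := congrFun (homC_sum c') i
    rw [h6]
    refine Fin.cases ?_ (fun i => ?_) i
    · simp
    · simp
  rw [h5, aeval_def, hmg_eval _ d' G hd']
  have h7 : eval₂ (algebraMap k L) (fun a => ∑ j, c' j a) G = 0 := h1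
  rw [h7, mul_zero]

theorem cons_homA {L : Type} [Field L] [Algebra k L] (d : ℕ) (p : MvPolynomial (Fin n) k)
    (hp : p.totalDegree ≤ d) (x : Fin n → L) :
    aeval (Fin.cons 1 x : Fin (n + 1) → L) (hmg d p) = aeval x p := by
  have h := hmg_eval (algebraMap k L) d p hp (1 : L) x
  simp only [one_mul, one_pow] at h
  exact h

theorem onOff_consA {L : Type} [Field L] [Algebra k L] (F : Fin N → MvPolynomial (Fin n) k)
    (d d' : ℕ) (hd : ∀ i, (F i).totalDegree ≤ d) (G : MvPolynomial (Fin n) k)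
    (hd' : G.totalDegree ≤ d') (x : Fin n → L) (hx : OffA F G x) :
    OnOff (fun i => hmg d (F i)) (X 0 * hmg d' G) (Fin.cons 1 x : Fin (n + 1) → L) := by
  refine ⟨cons_one_ne x, fun i => ?_, ?_⟩
  · rw [cons_homA d _ (hd _)]
    exact hx.1 _
  · rw [map_mul, aeval_X, Fin.cons_zero, one_mul, cons_homA d' _ hd']
    exact hx.2

theorem homU_hull {r : ℕ} (Γ : Subgroup Qbarˣ) (u : Fin r → Qbarˣ) (hu : ∀ j, u j ∈ DivHull Γ) :
    ∀ j, homU u j ∈ DivHull Γ := by
  intro j
  refine Fin.cases ?_ (fun j => ?_) j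
  · refine ⟨1, one_pos, ?_⟩
    rw [pow_one]
    exact Γ.one_mem
  · exact hu j

theorem heightsOff (F : Fin N → MvPolynomial (Fin n) k) (d : ℕ) (hd : ∀ i, (F i).totalDegree ≤ d)
    (G : MvPolynomial (Fin n) k) (r : ℕ) (hcur : CurCond F d G r) : HeightsOff F G r := by
  classical
  intro _ Γ hΓ
  obtain ⟨C, hC⟩ := mult_boundT (fun i => hmg d (F i)) (fun i => ⟨d, hmg_homog d _ (hd _)⟩)
    (X 0 * hmg G.totalDegree G)
    ⟨_, (isHomogeneous_X k (0 : Fin (n + 1))).mul (hmg_homog _ _ le_rfl)⟩ (TT r n)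
    (pattern_cond F d G.totalDegree hd G le_rfl r hcur) Γ hΓ
  refine ⟨|C| + (r + 1) + 1, fun u V hu hxo => ?_⟩
  have hx := psum_hom u V
  have hon : OnOff (fun i => hmg d (F i)) (X 0 * hmg G.totalDegree G)
      (SK.psum Finset.univ (homU u) (homV V)) := by
    rw [hx]
    exact onOff_consA F d _ hd G le_rfl _ hxo
  obtain ⟨J, hJ, hh⟩ := hC (homU u) (homV V) (fun j a h => homV_zero V j a h)
    (homU_hull Γ u hu) hon
  obtain ⟨c, hc, hc2⟩ := good_prop J (homU u) (homV V) hJ hon.1
  have h3 := psum_height J (homU u) (homV V)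
  rw [hc2, absLogHeight_smul _ hc, hx] at h3
  have h4 := hA_le_cons (fun a => ∑ j, (u j : Qbar) * V j a)
  have h5 := hV_homV V
  have h6 : 0 ≤ hV (homV V) := absLogHeight_nonneg _
  have h7 : C * (1 + hV (homV V)) ≤ |C| * (1 + hAV V) :=
    mul_le_mul (le_abs_self C) (by linarith) (by linarith) (abs_nonneg C)
  have h8 : (0 : ℝ) ≤ r := Nat.cast_nonneg r
  have h9 := hAV_nonneg V
  push_cast at h3
  nlinarith [mul_nonneg h8 h9]

theorem rationalOff (F : Fin N → MvPolynomial (Fin n) k) (G : MvPolynomial (Fin n) k) (r : ℕ)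
    (h : HeightsOff F G r) : RationalOff F G r := by
  intro _ Γ hΓ L _ _ φ B
  obtain ⟨C, hC⟩ := h Γ hΓ
  refine (northcott_affQ L φ (|C| * (1 + B))).subset ?_
  rintro x ⟨hx, u, V, hu, hV, hxe⟩
  have e : (fun a => φ (x a)) = fun a => ∑ j, (u j : Qbar) * V j a := funext hxe
  have h1 : OffA F G (fun a => ∑ j, (u j : Qbar) * V j a) := by
    rw [← e]
    exact hx
  have h2 := hC u V hu h1
  rw [← e] at h2
  refine h2.trans ?_
  have h9 := hAV_nonneg V
  exact mul_le_mul (le_abs_self C) (by linarith) (by linarith) (abs_nonneg _)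

theorem nearOff_main (F : Fin N → MvPolynomial (Fin n) k) (d : ℕ) (hd1 : 1 ≤ d)
    (hd : ∀ i, (F i).totalDegree ≤ d) (G : MvPolynomial (Fin n) k) (r : ℕ)
    (hcur : CurCond F d G r) : NearOff (eps d r) F G r := by
  classical
  intro _ Γ hΓ
  obtain ⟨A, m, hA⟩ := mix_finiteT (r := r + 1) (fun i => hmg d (F i)) d hd1
    (fun i => ⟨d, le_rfl, hmg_homog d _ (hd _)⟩)
    (X 0 * hmg G.totalDegree G)
    ⟨_, (isHomogeneous_X k (0 : Fin (n + 1))).mul (hmg_homog _ _ le_rfl)⟩ (TT r n)
    (pattern_cond F d G.totalDegree hd G le_rfl r hcur) Γ hΓ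
  refine ⟨|A|, m, fun V => ?_⟩
  obtain ⟨hfin, hcard⟩ := hA (homV V) (fun j a h => homV_zero V j a h)
  let θ : (Fin n → Qbar) → Projectivization Qbar (Fin (n + 1) → Qbar) := fun x =>
    Projectivization.mk Qbar (Fin.cons 1 x : Fin (n + 1) → Qbar) (cons_one_ne x)
  have hmaps : ∀ x ∈ nearOff F G Γ (eps d r) V,
      θ x ∈ mixPts (fun i => hmg d (F i)) (X 0 * hmg G.totalDegree G) Γ
        (epsn ((d + 1) ^ (r + 1)) / d / 2) (homV V) := by
    rintro x ⟨hxo, u, s, hu, hs, hx⟩
    have e1 : SK.psum Finset.univ (homU u) (fun j a =>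
        (Fin.cons 1 s : Fin (r + 1) → Qbar) j * homV V j a) =
        (Fin.cons 1 x : Fin (n + 1) → Qbar) := by
      funext a
      unfold SK.psum
      rw [Fin.sum_univ_succ]
      refine Fin.cases ?_ (fun a => ?_) a
      · simp [homU, homV]
      · simp only [homU, homV, Fin.cons_zero, Fin.cons_succ, mul_zero, zero_add]
        rw [hx a]
        exact Finset.sum_congr rfl fun j _ => by ring
    refine ⟨homU u, (Fin.cons 1 s : Fin (r + 1) → Qbar), homU_hull Γ u hu, ?_, ?_, ?_, ?_⟩
    · exact lt_of_le_of_lt (cons_le_hA s) hs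
    · rw [e1]
      exact onOff_consA F d _ hd G le_rfl _ hxo
    · rw [e1]
      exact cons_one_ne x
    · show Projectivization.mk Qbar (Fin.cons 1 x : Fin (n + 1) → Qbar) (cons_one_ne x) = _
      congr 1
      exact e1.symm
  have hinj : Set.InjOn θ (nearOff F G Γ (eps d r) V) := by
    intro x _ y _ hxy
    obtain ⟨c, hc⟩ := (Projectivization.mk_eq_mk_iff' Qbar _ _ (cons_one_ne x)
      (cons_one_ne y)).1 hxy
    have h0 := congrFun hc 0
    rw [Pi.smul_apply, Fin.cons_zero, Fin.cons_zero, smul_eq_mul, mul_one] at h0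
    rw [h0, one_smul] at hc
    funext a
    have := congrFun hc a.succ
    rw [Fin.cons_succ, Fin.cons_succ] at this
    exact this.symm
  have hfin' : (nearOff F G Γ (eps d r) V).Finite := Set.Finite.of_injOn hmaps hinj hfin
  refine ⟨hfin', ?_⟩
  have h1 := Set.ncard_le_ncard_of_injOn θ hmaps hinj hfin
  have h2 : ((nearOff F G Γ (eps d r) V).ncard : ℝ) ≤
      A * (1 + hV (homV V)) ^ m := le_trans (by exact_mod_cast h1) hcard
  refine h2.trans ?_
  have h3 : 0 ≤ hV (homV V) := absLogHeight_nonneg _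
  have h4 := hV_homV V
  exact mul_le_mul (le_abs_self A) (pow_le_pow_left₀ (by linarith) (by linarith) _)
    (by positivity) (abs_nonneg _)

theorem offA_map {L M : Type} [Field L] [Field M] [Algebra k L] (φ : L →+* M)
    (F : Fin N → MvPolynomial (Fin n) k) (G : MvPolynomial (Fin n) k) (x : Fin n → L)
    (hx : OffA F G x) :
    letI : Algebra k M := (φ.comp (algebraMap k L)).toAlgebra
    OffA F G (fun a => φ (x a)) := by
  let _ : Algebra k M := (φ.comp (algebraMap k L)).toAlgebra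
  have h : ∀ p : MvPolynomial (Fin n) k,
      aeval (fun a => φ (x a)) p = φ (aeval x p) := by
    intro p
    rw [aeval_def, aeval_def, MvPolynomial.hom_eval₂]
    rfl
  refine ⟨fun i => ?_, ?_⟩
  · rw [h, hx.1, map_zero]
  · rw [h]
    exact (map_ne_zero φ).2 hx.2

theorem unitSumOff (F : Fin N → MvPolynomial (Fin n) k) (G : MvPolynomial (Fin n) k) (r : ℕ)
    (h : RationalOff F G (n * r)) : UnitSumOff F G r := by
  classical
  intro L _ _ _ S hS
  obtain ⟨φ⟩ := exists_emb L
  let _ : Algebra k Qbar := (φ.comp (algebraMap k L)).toAlgebra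
  refine (h (SU φ S) (SU_fg φ S hS) L φ 0).subset ?_
  rintro x ⟨hx, hu⟩
  refine ⟨offA_map φ F G x hx, ?_⟩
  obtain ⟨u, s, h1, h2, h3⟩ := unit_vectors φ S r x hu
  refine ⟨u, fun j a => s j * (if (finProdFinEquiv.symm j).1 = a then (1 : Qbar) else 0),
    fun j => sub_hull _ _ (h1 j), ?_, fun a => ?_⟩
  · refine le_of_eq (hA_zero_one _ fun p => ?_)
    rcases h2 p.1 with h4 | h4
    · left
      show s p.1 * _ = 0
      rw [h4, zero_mul]
    · show s p.1 * _ = 0 ∨ s p.1 * _ = 1
      rw [h4, one_mul]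
      split_ifs
      · exact Or.inr rfl
      · exact Or.inl rfl
  · rw [h3 a]
    exact Finset.sum_congr rfl fun j _ => by ring

end Pool.Agent.Y215.AF
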