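import Mathlib
import Pool.Agent.Y215.AF.LogHull

set_option autoImplicit false
set_option linter.unusedSectionVars false
set_option linter.unusedSimpArgs false

/-! # Affine varieties dominated by punctured lines have many points which are sums of units -/

namespace Pool.Agent.Y215.AF

open Finset MvPolynomial IsDedekindDomain NumberField
open Pool.Agent.H159R3.Exp (Laur cpt gpt aeval_gpt cpt_laur)

variable {n : ℕ}

/-- descent of curves with a fixed shape -/
theorem descendC {K : Type} [Field K] [NumberField K] {ι : Type} {D : ℕ}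
    (F : ι → MvPolynomial (Fin n) K) (W : MvPolynomial (Fin n ⊕ Fin n) K)
    (M0 : Type) [Field M0] [Algebra K M0] (e : ℕ) (κ0 : Fin n × Fin (D + 1) → M0)
    (hF : ∀ i t, t ≠ 0 → aeval (cpt e κ0 t) (F i) = 0) (k1 : ℕ)
    (hW : aeval (Sum.elim (cpt e κ0 1) (cpt e κ0 (2 ^ k1))) W ≠ 0) :
    ∃ (L : Type) (_ : Field L) (_ : Algebra K L) (_ : NumberField L)
      (κ : Fin n × Fin (D + 1) → L), (∀ i t, t ≠ 0 → aeval (cpt e κ t) (F i) = 0) ∧
        aeval (Sum.elim (cpt e κ 1) (cpt e κ (2 ^ k1))) W ≠ 0 := by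
  classical
  have hchar : CharZero M0 := charZero_of_injective_algebraMap (algebraMap K M0).injective
  have hgF : ∀ (M : Type) [Field M] [Algebra K M] (κ : Fin n × Fin (D + 1) → M) (k : ℕ)
      (p : MvPolynomial (Fin n) K),
      aeval κ (bind₁ (gpt (K := K) (D := D) e k) p) = aeval (cpt e κ (2 ^ k)) p := by
    intro M _ _ κ k p
    rw [aeval_bind₁]
    congr 2
    funext j
    rw [aeval_gpt]
  have hgW : ∀ (M : Type) [Field M] [Algebra K M] (κ : Fin n × Fin (D + 1) → M),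
      aeval κ (bind₁ (Sum.elim (gpt (K := K) (D := D) e 0) (gpt (K := K) (D := D) e k1)) W)
        = aeval (Sum.elim (cpt e κ 1) (cpt e κ (2 ^ k1))) W := by
    intro M _ _ κ
    rw [aeval_bind₁]
    congr 2
    funext j
    rcases j with j | j
    · simp only [Sum.elim_inl]
      rw [aeval_gpt, pow_zero]
    · simp only [Sum.elim_inr]
      rw [aeval_gpt]
  obtain ⟨κ, hκ, hκW⟩ := H952R2.Sextic.transfer (k := K) (kb := AlgebraicClosure K)
    (fun x : ι × ℕ => bind₁ (gpt (K := K) (D := D) e x.2) (F x.1))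
    (bind₁ (Sum.elim (gpt (K := K) (D := D) e 0) (gpt (K := K) (D := D) e k1)) W)
    ⟨κ0, fun x => by
      rw [hgF M0]
      exact hF _ _ (pow_ne_zero _ two_ne_zero), by
      rw [hgW M0]
      exact hW⟩
  let L := IntermediateField.adjoin K (Set.range κ)
  have hfinL : FiniteDimensional K L := by
    apply IntermediateField.finiteDimensional_adjoin
    intro x _
    exact Algebra.IsIntegral.isIntegral x
  have hNF : NumberField L := NumberField.of_module_finite K L
  let κL : Fin n × Fin (D + 1) → L :=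
    fun j => ⟨κ j, IntermediateField.subset_adjoin K _ ⟨j, rfl⟩⟩
  refine ⟨L, inferInstance, inferInstance, hNF, κL, ?_, ?_⟩
  · intro i
    apply Pool.Agent.H159R3.Exp.Laur.zero_of_zero
      (Laur.eval₂ (algebraMap K L) (cpt e κL) (cpt_laur e κL) (F i))
    intro m
    change aeval (cpt e κL (2 ^ m)) (F i) = 0
    rw [← hgF L]
    apply (algebraMap L (AlgebraicClosure K)).injective
    rw [map_zero, ← hκ (i, m), ← aeval_algebraMap_apply]
    rfl
  · rw [← hgW L]
    intro h0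
    apply hκW
    have h1 := congrArg (algebraMap L (AlgebraicClosure K)) h0
    rw [map_zero, ← aeval_algebraMap_apply] at h1
    exact h1

/-- values of a curve at powers of `2` are sums of units -/
theorem cpt_units {L : Type} [Field L] [NumberField L] {D : ℕ} (e : ℕ)
    (κ : Fin n × Fin (D + 1) → L) : ∃ S : Set (HeightOneSpectrum (𝓞 L)), S.Finite ∧
      ∀ (m : ℕ) a, UnitSum S (D + 1) (cpt e κ (2 ^ m) a) := by
  classical
  let S : Set (HeightOneSpectrum (𝓞 L)) :=
    (⋃ p : Fin n × Fin (D + 1), (HeightOneSpectrum.Support (𝓞 L) (κ p) ∪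
      HeightOneSpectrum.Support (𝓞 L) ((κ p)⁻¹))) ∪
      HeightOneSpectrum.Support (𝓞 L) (2⁻¹ : L)
  have hS : S.Finite := by
    refine Set.Finite.union (Set.finite_iUnion fun p => ?_) (HeightOneSpectrum.Support.finite _ _)
    exact (HeightOneSpectrum.Support.finite _ _).union (HeightOneSpectrum.Support.finite _ _)
  have hmem : ∀ x : Lˣ, HeightOneSpectrum.Support (𝓞 L) (x : L) ⊆ S →
      HeightOneSpectrum.Support (𝓞 L) ((x : L)⁻¹) ⊆ S → x ∈ S.unit L := by
    intro x hx hx' v hv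
    have h1 : v.valuation L (x : L) ≤ 1 := by
      by_contra hcon
      exact hv (hx (not_le.mp hcon))
    have h2 : v.valuation L ((x : L)⁻¹) ≤ 1 := by
      by_contra hcon
      exact hv (hx' (not_le.mp hcon))
    refine le_antisymm h1 ?_
    rw [map_inv₀] at h2
    have h3 : v.valuation L (x : L) ≠ 0 := (Valuation.ne_zero_iff _).2 x.ne_zero
    exact (inv_le_one₀ (zero_lt_iff.2 h3)).1 h2
  have h20 : (2 : L) ≠ 0 := two_ne_zero
  have h2S : Units.mk0 (2 : L) h20 ∈ S.unit L := by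
    refine hmem _ ?_ ?_
    · intro v hv
      exfalso
      have h1 : (1 : WithZero (Multiplicative ℤ)) < v.valuation L (2 : L) := hv
      have h2 : v.valuation L (2 : L) ≤ 1 := by
        have h3 : v.valuation L (algebraMap (𝓞 L) L 2) ≤ 1 := v.valuation_le_one (2 : 𝓞 L)
        have h4 : algebraMap (𝓞 L) L 2 = 2 := map_ofNat _ _
        rwa [h4] at h3
      exact absurd h1 (not_lt.2 h2)
    · intro v hv
      exact Or.inr hv
  refine ⟨S, hS, fun m a => ?_⟩
  refine ⟨Finset.univ.filter fun i : Fin (D + 1) => κ (a, i) ≠ 0, fun i =>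
    if h : κ (a, i) ≠ 0 then Units.mk0 (κ (a, i)) h *
      ((Units.mk0 (2 : L) h20) ^ (m * (i : ℕ)) * ((Units.mk0 (2 : L) h20) ^ (m * e))⁻¹) else 1,
    fun i => ?_, ?_⟩
  · by_cases h : κ (a, i) ≠ 0
    · simp only [dif_pos h]
      refine (S.unit L).mul_mem (hmem _ ?_ ?_) ((S.unit L).mul_mem
        ((S.unit L).pow_mem h2S _) ((S.unit L).inv_mem ((S.unit L).pow_mem h2S _)))
      · intro w hw
        exact Or.inl (Set.mem_iUnion.2 ⟨(a, i), Or.inl hw⟩)
      · intro w hw
        exact Or.inl (Set.mem_iUnion.2 ⟨(a, i), Or.inr hw⟩)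
    · simp only [dif_neg h]
      exact (S.unit L).one_mem
  · unfold cpt
    rw [Finset.sum_div, Finset.sum_filter]
    refine Finset.sum_congr rfl fun i _ => ?_
    by_cases h : κ (a, i) ≠ 0
    · rw [if_pos h]
      simp only [dif_pos h]
      simp only [Units.val_mul, Units.val_mk0, Units.val_pow_eq_pow_val, Units.val_inv_eq_inv_val]
      rw [← pow_mul, ← pow_mul, div_eq_mul_inv, mul_assoc]
    · rw [if_neg h]
      have h' : κ (a, i) = 0 := not_not.1 h
      rw [h', zero_mul, zero_div]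

/-- a curve off `G = 0` gives infinitely many points -/
theorem inf_units {k : Type} [Field k] {N : ℕ} (F : Fin N → MvPolynomial (Fin n) k)
    (G : MvPolynomial (Fin n) k) {L : Type} [Field L] [NumberField L] [Algebra k L] {D : ℕ} (e : ℕ)
    (κ : Fin n × Fin (D + 1) → L) (hF : ∀ i t, t ≠ 0 → aeval (cpt e κ t) (F i) = 0)
    (hG : aeval (cpt e κ 1) G ≠ 0) (k1 : ℕ) (j1 : Fin n)
    (hk : cpt e κ (2 ^ k1) j1 ≠ cpt e κ 1 j1) : ¬ UnitSumOff F G (D + 1) := by
  classical
  intro hU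
  obtain ⟨S, hS, hsum⟩ := cpt_units e κ
  have hfin := hU L S hS
  have h20 : (2 : L) ≠ 0 := two_ne_zero
  have hv := cpt_laur e κ
  -- zeros
  have hG0 : {m : ℕ | aeval (cpt e κ (2 ^ m)) G = 0}.Finite :=
    (Laur.eval₂ (algebraMap k L) (cpt e κ) hv G).finite_zeros ⟨1, one_ne_zero, hG⟩
  have hfib : ∀ x : Fin n → L, {m : ℕ | cpt e κ (2 ^ m) = x}.Finite := by
    intro x
    have h1 : Laur fun t => cpt e κ t j1 + (-(x j1)) := (hv j1).add (Laur.const _)
    refine (h1.finite_zeros ?_).subset ?_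
    · by_contra hcon
      push Not at hcon
      have h2 := hcon (2 ^ k1) (pow_ne_zero _ h20)
      have h3 := hcon 1 one_ne_zero
      apply hk
      linear_combination h2 - h3
    · intro m hm
      have h2 : cpt e κ (2 ^ m) = x := hm
      show cpt e κ (2 ^ m) j1 + (-(x j1)) = 0
      rw [h2, add_neg_cancel]
  have hall : (Set.univ : Set ℕ) ⊆ {m : ℕ | aeval (cpt e κ (2 ^ m)) G = 0} ∪
      ⋃ x ∈ {x : Fin n → L | OffA F G x ∧ ∀ a, UnitSum S (D + 1) (x a)},
        {m : ℕ | cpt e κ (2 ^ m) = x} := by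
    intro m _
    by_cases h : aeval (cpt e κ (2 ^ m)) G = 0
    · exact Or.inl h
    · right
      rw [Set.mem_iUnion₂]
      exact ⟨cpt e κ (2 ^ m), ⟨⟨fun i => hF i _ (pow_ne_zero _ h20), h⟩, hsum m⟩, rfl⟩
  exact Set.infinite_univ ((hG0.union (hfin.biUnion fun x _ => hfib x)).subset hall)

/-- the shape of a curve -/
theorem exists_cpt {M0 : Type} [Field M0] (v : M0 → Fin n → M0) (hv : ∀ a, Laur fun t => v t a) :
    ∃ (e D : ℕ) (κ0 : Fin n × Fin (D + 1) → M0), ∀ t, t ≠ 0 → cpt e κ0 t = v t := by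
  classical
  obtain ⟨e, Q, hQ⟩ := Laur.common v hv
  let D := Finset.univ.sup (fun j => (Q j).natDegree)
  refine ⟨e, D, fun p => (Q p.1).coeff p.2, fun t ht => ?_⟩
  funext j
  rw [hQ t ht j]
  unfold cpt
  congr 1
  rw [Polynomial.eval_eq_sum_range' (n := D + 1) (Nat.lt_succ_of_le (Finset.le_sup
    (f := fun j => (Q j).natDegree) (Finset.mem_univ j)))]
  rw [Finset.sum_range]

/-- nonconstant curves are nonconstant on the powers of `2` -/
theorem exists_k1 {M0 : Type} [Field M0] [CharZero M0] (v : M0 → Fin n → M0)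
    (hv : ∀ a, Laur fun t => v t a) (h : ∃ t s, t ≠ 0 ∧ s ≠ 0 ∧ v t ≠ v s) :
    ∃ (k1 : ℕ) (j1 : Fin n), v (2 ^ k1) j1 ≠ v 1 j1 := by
  by_contra hcon
  push Not at hcon
  obtain ⟨t, s, ht, hs, hts⟩ := h
  apply hts
  funext j
  have h1 : Laur fun t => v t j + (-(v 1 j)) := (hv j).add (Laur.const _)
  have h2 := Pool.Agent.H159R3.Exp.Laur.zero_of_zero h1 (fun m => by
    rw [hcon m j, add_neg_cancel])
  have h3 := h2 t ht
  have h4 := h2 s hs
  linear_combination h3 - h4

/-- **Converse.** -/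
theorem conv_gm {k : Type} [Field k] [NumberField k] {N : ℕ}
    (F : Fin N → MvPolynomial (Fin n) k) (h : GmUniruled (Ideal.span (Set.range F))) :
    ∃ r : ℕ, ∀ G : MvPolynomial (Fin n) k, G ∉ Ideal.span (Set.range F) →
      ¬ UnitSumOff F G r := by
  classical
  obtain ⟨M0, _, _, v, hv, hvF, hvG, hnc⟩ := h
  have hchar : CharZero M0 := charZero_of_injective_algebraMap (algebraMap k M0).injective
  obtain ⟨k1, j1, hk1⟩ := exists_k1 v hv hnc
  obtain ⟨e, D, κ0, hκ0⟩ := exists_cpt v hv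
  refine ⟨D + 1, fun G hG => ?_⟩
  have h20 : (2 : M0) ^ k1 ≠ 0 := pow_ne_zero _ two_ne_zero
  obtain ⟨L, _, _, hNF, κ, hκF, hκW⟩ := descendC F
    (rename Sum.inl G * (X (Sum.inr j1) - X (Sum.inl j1))) M0 e κ0
    (fun i t ht => by
      rw [hκ0 t ht]
      exact hvF _ (Ideal.subset_span ⟨i, rfl⟩) t ht) k1 (by
    rw [hκ0 _ one_ne_zero, hκ0 _ h20, map_mul, aeval_rename, map_sub, aeval_X, aeval_X]
    simp only [Sum.elim_comp_inl, Sum.elim_inr, Sum.elim_inl]
    exact mul_ne_zero (hvG G hG) (sub_ne_zero.mpr hk1))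
  rw [map_mul, aeval_rename, map_sub, aeval_X, aeval_X] at hκW
  simp only [Sum.elim_comp_inl, Sum.elim_inr, Sum.elim_inl] at hκW
  exact inf_units F G e κ hκF (left_ne_zero_of_mul hκW) k1 j1
    (sub_ne_zero.mp (right_ne_zero_of_mul hκW))

/-- There is no nonconstant map from the punctured line over a number field to `F = 0`. -/
def NoGmCurve {k : Type} [Field k] {N : ℕ} (F : Fin N → MvPolynomial (Fin n) k) : Prop :=
  ∀ (L : Type) [Field L] [NumberField L] [Algebra k L] (v : L → Fin n → L),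
    (∀ a, Laur fun t => v t a) → (∀ i t, t ≠ 0 → aeval (v t) (F i) = 0) →
    ∀ t s, t ≠ 0 → s ≠ 0 → v t = v s

theorem curCond_one {k : Type} [Field k] [NumberField k] {N : ℕ}
    (F : Fin N → MvPolynomial (Fin n) k) (d : ℕ) (hd : ∀ i, (F i).totalDegree ≤ d)
    (h : NoGmCurve F) (r : ℕ) : CurCond F d 1 r := by
  classical
  intro M0 _ _ c l hz hc
  exfalso
  have hchar : CharZero M0 := charZero_of_injective_algebraMap (algebraMap k M0).injective
  obtain ⟨i, i', hc⟩ := hc
  obtain ⟨m, hm⟩ := lc_nonconst c l i i' hc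
  have hv := lc_laur c l
  obtain ⟨k1, j1, hk1⟩ := exists_k1 (lc c l) hv ⟨2 ^ m, 1, pow_ne_zero _ two_ne_zero,
    one_ne_zero, hm⟩
  obtain ⟨e, D, κ0, hκ0⟩ := exists_cpt (lc c l) hv
  have h20 : (2 : M0) ^ k1 ≠ 0 := pow_ne_zero _ two_ne_zero
  obtain ⟨L, _, _, hNF, κ, hκF, hκW⟩ := descendC F
    (X (Sum.inr j1) - X (Sum.inl j1)) M0 e κ0
    (fun i t ht => by
      rw [hκ0 t ht]
      exact lc_zero d (F i) (hd i) c l (hz i) t ht) k1 (by
    rw [hκ0 _ one_ne_zero, hκ0 _ h20, map_sub, aeval_X, aeval_X]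
    simp only [Sum.elim_inr, Sum.elim_inl]
    exact sub_ne_zero.mpr hk1)
  rw [map_sub, aeval_X, aeval_X] at hκW
  simp only [Sum.elim_inr, Sum.elim_inl] at hκW
  apply sub_ne_zero.mp hκW
  have h1 := h L (cpt e κ) (cpt_laur e κ) hκF (2 ^ k1) 1 (pow_ne_zero _ two_ne_zero) one_ne_zero
  exact congrFun h1 j1

theorem noGm_of_units {k : Type} [Field k] [NumberField k] {N : ℕ}
    (F : Fin N → MvPolynomial (Fin n) k) (h : ∀ r, UnitSumOff F 1 r) : NoGmCurve F := by
  classical
  intro L _ _ _ v hv hF t s ht hs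
  by_contra hne
  obtain ⟨k1, j1, hk1⟩ := exists_k1 v hv ⟨t, s, ht, hs, hne⟩
  obtain ⟨e, D, κ, hκ⟩ := exists_cpt v hv
  have h20 : (2 : L) ^ k1 ≠ 0 := pow_ne_zero _ two_ne_zero
  refine inf_units F 1 e κ (fun i t ht => ?_) ?_ k1 j1 ?_ (h (D + 1))
  · rw [hκ t ht]
    exact hF i t ht
  · rw [map_one]
    exact one_ne_zero
  · rw [hκ _ h20, hκ _ one_ne_zero]
    exact hk1

end Pool.Agent.Y215.AF
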