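import Mathlib
import Pool.Agent.Y215.AF.Defs
import Pool.Agent.Y215.SK.Defs2
import Pool.Agent.Y215.SP.Defs

set_option autoImplicit false

/-! # Sums of elements of a group of finite rank on projective varieties without rational curves -/

namespace Pool.Agent.Y215.AF

open MvPolynomial IsDedekindDomain NumberField
open Pool.Agent.Helper259.AbsHt Pool.Agent.Y215.SK Pool.Agent.Y215.SP

variable {k : Type} [Field k] {N n : ℕ}

/-- Every map from the line over a number field to `P = 0`, given by polynomials, is constant. -/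
def NoRatK (P : Fin N → MvPolynomial (Fin (n + 1)) k) : Prop :=
  ∀ (K : Type) [Field K] [NumberField K] [Algebra k K] (q : Fin (n + 1) → Polynomial K),
    (∀ i, aeval q (P i) = 0) →
    ∀ i j (a b : K), (q i).eval a * (q j).eval b = (q j).eval a * (q i).eval b

/-- For every embedding of `k` in `Qbar`, every `r` and every finitely generated group `Γ` of
algebraic numbers, all points `x` of `X` of the form `∑ u_j V_j` with `r` terms satisfy
`h(x) ≤ C (1 + h(V))`; the `u_j` have a power in `Γ` and the vectors `V_j` over `Qbar` are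
arbitrary. -/
def HeightsP (P : Fin N → MvPolynomial (Fin (n + 1)) k) : Prop :=
  ∀ [Algebra k Qbar] (r : ℕ) (Γ : Subgroup Qbarˣ), Γ.FG → ∃ C : ℝ,
    ∀ (u : Fin r → Qbarˣ) (V : Fin r → Fin (n + 1) → Qbar), (∀ j, u j ∈ DivHull Γ) →
      OnOff P 1 (SK.psum Finset.univ u V) →
      absLogHeight (SK.psum Finset.univ u V) ≤ C * (1 + hV V)

/-- For each number field `K` in `Qbar`, the points of this form over `K` with `h(V) ≤ B` are finite
in number. -/
def RationalP (P : Fin N → MvPolynomial (Fin (n + 1)) k) : Prop :=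
  ∀ [Algebra k Qbar] (r : ℕ) (Γ : Subgroup Qbarˣ), Γ.FG →
    ∀ (K : Type) [Field K] [NumberField K] (φ : K →+* Qbar) (B : ℝ),
      (ratPts φ P 1 Γ {V : Fin r → Fin (n + 1) → Qbar | hV V ≤ B}).Finite

/-- Over `Qbar` there are only finitely many points `∑ u_j s_j V_j` with `u_j` with a power in `Γ` and
`h(s) < ε r`, at most `A (1 + h(V)) ^ e` where `A` and `e` do not depend on `V`. -/
def NearP (ε : ℕ → ℝ) (P : Fin N → MvPolynomial (Fin (n + 1)) k) : Prop :=
  ∀ [Algebra k Qbar] (r : ℕ) (Γ : Subgroup Qbarˣ), Γ.FG →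
    ∃ (A : ℝ) (e : ℕ), ∀ V : Fin r → Fin (n + 1) → Qbar, (mixPts P 1 Γ (ε r) V).Finite ∧
      ((mixPts P 1 Γ (ε r) V).ncard : ℝ) ≤ A * (1 + hV V) ^ e

/-- For all fields `L ⊇ k` and all vectors `v_1, …, v_r` over `L` at most `M r` points of `X` are of
the form `∑ t_j v_j` with algebraic numbers `t_j` and `h(t) < ε r`. -/
def SmallP (ε : ℕ → ℝ) (M : ℕ → ℕ) (P : Fin N → MvPolynomial (Fin (n + 1)) k) : Prop :=
  ∀ (r : ℕ) (L : Type) [Field L] [Algebra k L] (ι : Qbar →+* L) (v : Fin r → Fin (n + 1) → L),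
    (smallOff ι P 1 (ε r) v).encard ≤ (M r : ℕ∞)

/-- For all vectors over `Qbar` only finitely many points of `X` are of the form `∑ ζ_j v_j` with
roots of unity `ζ_j`. -/
def TorsP (P : Fin N → MvPolynomial (Fin (n + 1)) k) : Prop :=
  ∀ [Algebra k Qbar] (r : ℕ) (v : Fin r → Fin (n + 1) → Qbar), (torsOff P 1 v).Finite

/-- For every number field `K ⊇ k` and every finite set `S` of primes, the points of `X(K)` that have
homogeneous coordinates which are sums of at most `r` `S`-units are finite in number. -/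
def UnitSumP (P : Fin N → MvPolynomial (Fin (n + 1)) k) : Prop :=
  ∀ (K : Type) [Field K] [NumberField K] [Algebra k K] (S : Set (HeightOneSpectrum (𝓞 K))),
    S.Finite → ∀ r : ℕ, {p : Projectivization K (Fin (n + 1) → K) |
      ∃ (y : Fin (n + 1) → K) (hy : y ≠ 0), p = Projectivization.mk K y hy ∧
        (∀ i, aeval y (P i) = 0) ∧ ∀ a, UnitSum S r (y a)}.Finite

end Pool.Agent.Y215.AF
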