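import Mathlib
import Pool.Agent.Y215.AF.ProjDefs
import Pool.Agent.Y215.AF.LogConv
import Pool.Agent.Y215.SP.Conv
import Pool.Agent.TH409.SH.Fin2

set_option autoImplicit false
set_option linter.unusedSectionVars false
set_option linter.unusedSimpArgs false

/-! # Sums of elements of a group of finite rank on projective varieties without rational curves -/

namespace Pool.Agent.Y215.AF

open Finset MvPolynomial IsDedekindDomain NumberField
open Pool.Agent.Helper259.AbsHt Pool.Agent.Y215.SK Pool.Agent.Y215.SP Pool.Agent.H533R3.SL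
open Pool.Agent.H458.Sp (BrodyHyperbolic)
open Pool.Agent.H159R3.Exp (Laur cpt cpt_laur)

variable {k : Type} [Field k] {N n : ℕ}

theorem brody_noRatK [NumberField k] (σ : k →+* ℂ) (P : Fin N → MvPolynomial (Fin (n + 1)) k)
    (hom : ∀ i, ∃ e, (P i).IsHomogeneous e)
    (hyp : BrodyHyperbolic (Set.range fun i => MvPolynomial.map σ (P i))) : NoRatK P := by
  intro K _ _ _ q hq i j a b
  have : Module.Finite k K := Module.Finite.of_restrictScalars_finite ℚ k K
  let _ : Algebra k ℂ := σ.toAlgebra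
  let τ : K →ₐ[k] ℂ := IsAlgClosed.lift
  have hτinj : Function.Injective τ.toRingHom := τ.toRingHom.injective
  have hcomp : τ.toRingHom.comp (algebraMap k K) = σ := τ.comp_algebraMap
  have hev : ∀ i (a : K), ((q i).map τ.toRingHom).eval (τ.toRingHom a) =
      τ.toRingHom ((q i).eval a) := by
    intro i a
    rw [Polynomial.eval_map, Polynomial.eval₂_at_apply]
  have h := Pool.Agent.TH409.SH.no_curveC' _ (by
      rintro _ ⟨i, rfl⟩
      obtain ⟨e, he⟩ := hom i
      exact ⟨e, he.map _⟩) hyp (fun i => (q i).map τ.toRingHom) (by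
      rintro _ ⟨i, rfl⟩
      have h1 := hq i
      have h2 := congrArg (Polynomial.mapRingHom τ.toRingHom) h1
      rw [map_zero, aeval_def, MvPolynomial.hom_eval₂] at h2
      rw [aeval_def, MvPolynomial.eval₂_map, ← h2]
      congr 1
      rw [← hcomp]
      ext a
      simp) i j (τ.toRingHom a) (τ.toRingHom b)
  rw [hev, hev, hev, hev, ← map_mul, ← map_mul] at h
  exact hτinj h

/-- no curves over any extension -/
theorem no_curve [NumberField k] (P : Fin N → MvPolynomial (Fin (n + 1)) k) (hno : NoRatK P)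
    {r : ℕ} (L : Type) [Field L] [Algebra k L] (c : Fin r → Fin (n + 1) → L) (l : Fin r → ℕ)
    (hz : ∀ i, MvPolynomial.aeval (cur c l) (P i) = 0)
    (hc : ∃ i i', cur c l i * Polynomial.C (∑ j, c j i') ≠
      cur c l i' * Polynomial.C (∑ j, c j i)) : False := by
  classical
  obtain ⟨i, i', hc⟩ := hc
  set M : ℕ := Finset.univ.sup (fun i => (cur c l i).natDegree) + 1 with hM
  have hMc : ∀ i m, M ≤ m → (cur c l i).coeff m = 0 := by
    intro i m hm
    apply Polynomial.coeff_eq_zero_of_natDegree_lt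
    have := Finset.le_sup (f := fun i => (cur c l i).natDegree) (Finset.mem_univ i)
    omega
  obtain ⟨K, _, _, _, v, hv1, hv2, -⟩ :=
    Pool.Agent.TH409.SH.specialise (n := n) k L (cur c l) (Set.range P)
      (by
        rintro _ ⟨i, rfl⟩
        exact hz i) M hMc ⟨i, i', by rw [cur_eval_one, cur_eval_one]; exact hc⟩ 1
      (by rw [map_one]; exact one_ne_zero)
  obtain ⟨i1, i2, a, b, hab⟩ := Pool.Agent.TH409.SH.nonconst_of _ hv2
  exact hab (hno K _ (fun i => hv1 _ ⟨i, rfl⟩) i1 i2 a b)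

theorem heightsP [NumberField k] (P : Fin N → MvPolynomial (Fin (n + 1)) k)
    (hP : ∀ i, ∃ e, (P i).IsHomogeneous e) (hno : NoRatK P) : HeightsP P := by
  intro _ r Γ hΓ
  obtain ⟨C, hC⟩ := mult_bound P hP 1 ⟨0, isHomogeneous_one _ _⟩
    (fun L _ _ c l hz hc => (no_curve P hno L c l hz hc).elim) Γ hΓ (r := r)
  refine ⟨|C| + r, fun u V hu hon => ?_⟩
  obtain ⟨J, hJ, hh⟩ := hC u V hu hon
  obtain ⟨c, hc, hc2⟩ := good_prop J u V hJ hon.1
  have hV0 : 0 ≤ hV V := absLogHeight_nonneg _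
  have hr : (0 : ℝ) ≤ r := Nat.cast_nonneg r
  have h4 : C * (1 + hV V) ≤ |C| * (1 + hV V) :=
    mul_le_mul_of_nonneg_right (le_abs_self C) (by linarith)
  rw [← absLogHeight_smul _ hc, ← hc2]
  have h6 := psum_height J u V
  rcases Nat.eq_zero_or_pos r with h7 | h7
  · exfalso
    subst h7
    apply hon.1
    funext a
    unfold SK.psum
    simp
  · have h8 : (1 : ℝ) ≤ r := by exact_mod_cast h7
    nlinarith

theorem rationalP [NumberField k] (P : Fin N → MvPolynomial (Fin (n + 1)) k)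
    (h : HeightsP P) : RationalP P := by
  intro _ r Γ hΓ K _ _ φ B
  obtain ⟨C, hC⟩ := h r Γ hΓ
  refine (northcott_proj K φ (|C| * (1 + B))).subset ?_
  rintro p ⟨y, hy, rfl, hon, u, hu, V, hVB, hps⟩
  refine ⟨y, hy, rfl, ?_⟩
  rw [← hps] at hon ⊢
  have hVB' : hV V ≤ B := hVB
  have hV0 : 0 ≤ hV V := absLogHeight_nonneg _
  refine (hC u V hu hon).trans ?_
  exact mul_le_mul (le_abs_self C) (by linarith) (by linarith) (abs_nonneg C)

/-- the constants -/
noncomputable def epsN (d r : ℕ) : ℝ := epsn ((d + 1) ^ r) / d / 2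

theorem epsN_pos (d r : ℕ) (hd : 1 ≤ d) : 0 < epsN d r :=
  half_pos (div_pos (epsn_pos _ (Nat.one_le_pow _ _ (by omega))) (by exact_mod_cast hd))

theorem nearP [NumberField k] (P : Fin N → MvPolynomial (Fin (n + 1)) k) (d : ℕ) (hd : 1 ≤ d)
    (hP : ∀ i, ∃ e, e ≤ d ∧ (P i).IsHomogeneous e) (hno : NoRatK P) : NearP (epsN d) P := by
  intro _ r Γ hΓ
  exact mix_finite P d hd hP 1 ⟨0, isHomogeneous_one _ _⟩
    (fun L _ _ c l hz hc => (no_curve P hno L c l hz hc).elim) Γ hΓ

/-- the bound for the number of points -/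
noncomputable def bndM (d r : ℕ) : ℕ := 2 ^ r * M0 ((d + 1) ^ r) d r

theorem smallP [NumberField k] (P : Fin N → MvPolynomial (Fin (n + 1)) k) (d : ℕ) (hd : 1 ≤ d)
    (hP : ∀ i, ∃ e, e ≤ d ∧ (P i).IsHomogeneous e) (hno : NoRatK P) :
    SmallP (epsN d) (bndM d) P := by
  intro r L _ _ ι v
  have h := card_smallOffT P d hd hP 1 (L := L) Set.univ
    (fun c l _ hz hc => (no_curve P hno L c l hz hc).elim) ι v
    (fun j a h => absurd (Set.mem_univ _) h)
  refine le_trans (Set.encard_le_encard ?_) h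
  rintro p ⟨t, ht, h1, h2, h3⟩
  refine ⟨t, lt_of_lt_of_le ht ?_, h1, h2, h3⟩
  have : 0 ≤ epsn ((d + 1) ^ r) / d :=
    (div_pos (epsn_pos _ (Nat.one_le_pow _ _ (by omega))) (by exact_mod_cast hd)).le
  unfold epsN
  linarith

theorem torsP_of_smallP (P : Fin N → MvPolynomial (Fin (n + 1)) k) (ε : ℕ → ℝ)
    (hε : ∀ r, 0 < ε r) (M : ℕ → ℕ) (h : SmallP ε M P) : TorsP P := by
  intro _ r v
  have h1 := h r Qbar (RingHom.id Qbar) v
  refine Set.finite_of_encard_le_coe (k := M r) (le_trans (Set.encard_le_encard ?_) h1)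
  rintro p ⟨ζ, hζ, hz, hG, h0, rfl⟩
  refine ⟨ζ, ?_, hz, hG, h0, rfl⟩
  refine lt_of_le_of_lt ?_ (hε r)
  refine (height_le_sum _).trans (Finset.sum_nonpos fun j _ => ?_)
  obtain ⟨m, hm, h2⟩ := hζ j
  have h3 := h1_zpow (ζ j) m
  rw [zpow_natCast, h2, h1_one] at h3
  have h4 : (0 : ℝ) < |((m : ℤ) : ℝ)| := by
    rw [abs_pos]
    exact_mod_cast hm.ne'
  have h5 : SK.h1 (ζ j) = 0 := by
    rcases mul_eq_zero.1 h3.symm with h | h
    · exact absurd h h4.ne'
    · exact h
  exact h5.le

/-- infinitely many points on a nonconstant curve -/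
theorem inf_pts {K : Type} [Field K] (q : Fin (n + 1) → Polynomial K)
    (hq : ∃ i j a b, (q i).eval a * (q j).eval b ≠ (q j).eval a * (q i).eval b)
    (T : Set K) (hT : T.Infinite) :
    {p : Projectivization K (Fin (n + 1) → K) | ∃ z ∈ T, ∃ h : (fun i => (q i).eval z) ≠ 0,
      p = Projectivization.mk K _ h}.Infinite := by
  classical
  intro hfin
  obtain ⟨i1, i2, a1, b1, hab⟩ := hq
  obtain ⟨i0, hi0⟩ : ∃ i0, q i0 ≠ 0 := by
    by_contra h
    push Not at h
    apply hab
    rw [h i1, h i2]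
  have hbad : {z : K | (q i0).eval z = 0}.Finite := Polynomial.finite_setOfPred_isRoot hi0
  have hfib : ∀ y : Fin (n + 1) → K, y ≠ 0 →
      {z : K | ∀ i j, (q i).eval z * y j = (q j).eval z * y i}.Finite := by
    intro y hy
    have h1 : ∃ i j, q i * Polynomial.C (y j) ≠ q j * Polynomial.C (y i) := by
      by_contra h
      push Not at h
      obtain ⟨j0, hj0⟩ := Function.ne_iff.1 hy
      simp only [Pi.zero_apply] at hj0
      have h2 : ∀ i, q i = q j0 * Polynomial.C (y i / y j0) := by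
        intro i
        have h3 := h i j0
        have h4 : q i * Polynomial.C (y j0) * Polynomial.C (y j0)⁻¹ =
            q j0 * Polynomial.C (y i) * Polynomial.C (y j0)⁻¹ := by rw [h3]
        rw [mul_assoc, mul_assoc, ← Polynomial.C_mul, ← Polynomial.C_mul, mul_inv_cancel₀ hj0,
          Polynomial.C_1, mul_one, ← div_eq_mul_inv] at h4
        exact h4
      apply hab
      rw [h2 i1, h2 i2]
      simp only [Polynomial.eval_mul, Polynomial.eval_C]
      ring
    obtain ⟨i, j, hij⟩ := h1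
    refine (Polynomial.finite_setOfPred_isRoot (sub_ne_zero.2 hij)).subset ?_
    intro t ht
    have := ht i j
    show Polynomial.eval t _ = 0
    rw [Polynomial.eval_sub, Polynomial.eval_mul, Polynomial.eval_mul, Polynomial.eval_C,
      Polynomial.eval_C, this, sub_self]
  have hsub : T ⊆ {z : K | (q i0).eval z = 0} ∪
      ⋃ p ∈ {p : Projectivization K (Fin (n + 1) → K) | ∃ z ∈ T,
        ∃ h : (fun i => (q i).eval z) ≠ 0, p = Projectivization.mk K _ h},
        {z : K | ∀ i j, (q i).eval z * p.rep j = (q j).eval z * p.rep i} := by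
    intro z hz
    by_cases h : (q i0).eval z = 0
    · exact Or.inl h
    · right
      have h3 : (fun i => (q i).eval z) ≠ 0 := by
        intro h0
        exact h (congrFun h0 i0)
      rw [Set.mem_iUnion₂]
      refine ⟨Projectivization.mk K _ h3, ⟨z, hz, h3, rfl⟩, ?_⟩
      obtain ⟨a, ha⟩ := Projectivization.exists_smul_eq_mk_rep K _ h3
      intro i j
      rw [← ha]
      show _ * ((a : K) • (fun i => (q i).eval z)) j = _ * ((a : K) • (fun i => (q i).eval z)) i
      simp only [Pi.smul_apply, smul_eq_mul]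
      ring
  exact hT ((hbad.union (hfin.biUnion fun p _ => hfib p.rep p.rep_nonzero)).subset hsub)

theorem infinite_two {K : Type} [Field K] [CharZero K] :
    (Set.range fun m : ℕ => (2 : K) ^ m).Infinite := by
  refine Set.infinite_range_of_injective ?_
  intro a b hab
  have h1 : (2 : K) ^ a = 2 ^ b := hab
  have h2 : ((2 ^ a : ℕ) : K) = ((2 ^ b : ℕ) : K) := by
    push_cast
    exact h1
  have h3 : (2 : ℕ) ^ a = 2 ^ b := by exact_mod_cast h2
  exact Nat.pow_right_injective le_rfl h3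

theorem noRat_of_units (P : Fin N → MvPolynomial (Fin (n + 1)) k) (h : UnitSumP P) :
    NoRatK P := by
  classical
  intro K _ _ _ q hq i j a b
  by_contra hne
  have hinf := inf_pts q ⟨i, j, a, b, hne⟩ _ (infinite_two (K := K))
  obtain ⟨D, hD⟩ : ∃ D : ℕ, ∀ i, (q i).natDegree ≤ D :=
    ⟨Finset.univ.sup (fun i => (q i).natDegree), fun i =>
      Finset.le_sup (f := fun i => (q i).natDegree) (Finset.mem_univ i)⟩
  obtain ⟨S, hS, hsum⟩ := cpt_units (n := n + 1) (D := D) 0
    (fun p : Fin (n + 1) × Fin (D + 1) => (q p.1).coeff p.2)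
  have hcpt : ∀ (t : K) i, cpt 0 (fun p : Fin (n + 1) × Fin (D + 1) => (q p.1).coeff p.2) t i =
      (q i).eval t := by
    intro t i
    unfold cpt
    rw [pow_zero, div_one, Polynomial.eval_eq_sum_range' (n := D + 1)
      (Nat.lt_succ_of_le (hD i)), Finset.sum_range]
  refine hinf ((h K S hS (D + 1)).subset ?_)
  rintro p ⟨z, ⟨m, rfl⟩, h0, rfl⟩
  refine ⟨_, h0, rfl, fun i => ?_, fun a => ?_⟩
  · rw [← aeval_eval, hq i, Polynomial.eval_zero]
  · have h1 := hsum m a
    rw [hcpt] at h1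
    exact h1

theorem noRat_of_tors (P : Fin N → MvPolynomial (Fin (n + 1)) k) (h : TorsP P) :
    NoRatK P := by
  classical
  intro K _ _ _ q hq i j a b
  by_contra hne
  obtain ⟨φ⟩ := exists_emb K
  let _ : Algebra k Qbar := (φ.comp (algebraMap k K)).toAlgebra
  obtain ⟨D, hD⟩ : ∃ D : ℕ, ∀ i, (q i).natDegree ≤ D :=
    ⟨Finset.univ.sup (fun i => (q i).natDegree), fun i =>
      Finset.le_sup (f := fun i => (q i).natDegree) (Finset.mem_univ i)⟩
  let Q : Fin (n + 1) → Polynomial Qbar := fun i => (q i).map φ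
  have hev : ∀ i (a : K), (Q i).eval (φ a) = φ ((q i).eval a) := by
    intro i a
    rw [Polynomial.eval_map, Polynomial.eval₂_at_apply]
  have hQ0 : ∀ i, (aeval Q (P i) : Polynomial Qbar) = 0 := by
    intro i
    have h1 : Polynomial.map φ (aeval q (P i)) =
        MvPolynomial.eval₂ ((Polynomial.mapRingHom φ).comp (algebraMap k (Polynomial K)))
          (fun i => Polynomial.mapRingHom φ (q i)) (P i) := by
      rw [MvPolynomial.aeval_def]
      exact MvPolynomial.hom_eval₂ (P i) _ (Polynomial.mapRingHom φ) _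
    rw [hq i, Polynomial.map_zero] at h1
    rw [MvPolynomial.aeval_def, h1]
    congr 1
    refine RingHom.ext fun a => ?_
    show _ = Polynomial.map φ (algebraMap k (Polynomial K) a)
    rw [Polynomial.algebraMap_apply, Polynomial.algebraMap_apply]
    show _ = Polynomial.map φ (Polynomial.C _)
    rw [Polynomial.map_C]
    rfl
  have hinf := inf_pts Q ⟨i, j, φ a, φ b, by
    rw [hev, hev, hev, hev, ← map_mul, ← map_mul]
    exact fun h => hne (φ.injective h)⟩ _ infinite_roots
  refine hinf ((h (D + 1) (fun j i => φ ((q i).coeff (j : ℕ)))).subset ?_)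
  rintro p ⟨z, ⟨m, hm, hz⟩, h0, rfl⟩
  have hpt : (fun i => (Q i).eval z) =
      fun a => ∑ j : Fin (D + 1), z ^ (j : ℕ) * φ ((q a).coeff (j : ℕ)) := by
    funext i
    have h1 : (Q i).natDegree < D + 1 :=
      Nat.lt_succ_of_le ((Polynomial.natDegree_map_le).trans (hD i))
    rw [Polynomial.eval_eq_sum_range' h1, Finset.sum_range]
    refine Finset.sum_congr rfl fun j _ => ?_
    rw [Polynomial.coeff_map, mul_comm]
  refine ⟨fun j => z ^ (j : ℕ), fun j => ⟨m, hm, ?_⟩, fun i => ?_, ?_, ?_⟩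
  · rw [← pow_mul, mul_comm, pow_mul, hz, one_pow]
  · rw [← hpt, ← aeval_eval, hQ0 i, Polynomial.eval_zero]
  · rw [map_one]
    exact one_ne_zero
  · have h1 : (fun a => ∑ j : Fin (D + 1), z ^ (j : ℕ) * φ ((q a).coeff (j : ℕ))) ≠ 0 := by
      rw [← hpt]
      exact h0
    exact ⟨h1, mk_congr h0 h1 hpt⟩

theorem unit_of_rational (P : Fin N → MvPolynomial (Fin (n + 1)) k) (h : RationalP P) :
    UnitSumP P := by
  classical
  intro K _ _ _ S hS r
  obtain ⟨φ⟩ := exists_emb K
  let _ : Algebra k Qbar := (φ.comp (algebraMap k K)).toAlgebra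
  have hφ : ∀ (F : MvPolynomial (Fin (n + 1)) k) (y : Fin (n + 1) → K),
      aeval (fun a => φ (y a)) F = φ (aeval y F) := by
    intro F y
    rw [aeval_def, aeval_def, MvPolynomial.hom_eval₂]
    rfl
  refine (h ((n + 1) * r) (SU φ S) (SU_fg φ S hS) K φ 0).subset ?_
  rintro p ⟨y, hy, rfl, hz, hu⟩
  obtain ⟨u, s, h1, h2, h3⟩ := unit_vectors φ S r y hu
  refine ⟨y, hy, rfl, ⟨?_, fun i => ?_, ?_⟩, u, fun j => sub_hull _ _ (h1 j),
    fun j a => s j * (if (finProdFinEquiv.symm j).1 = a then (1 : Qbar) else 0), ?_, ?_⟩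
  · intro h0
    apply hy
    funext a
    have := congrFun h0 a
    exact (map_eq_zero φ).1 this
  · rw [hφ, hz i, map_zero]
  · rw [map_one]
    exact one_ne_zero
  · show hV _ ≤ 0
    unfold hV
    refine (height_le_sum _).trans (Finset.sum_nonpos fun p _ => ?_)
    show SK.h1 (s p.1 * _) ≤ 0
    rcases h2 p.1 with h4 | h4
    · rw [h4, zero_mul, h1_zero]
    · rw [h4, one_mul]
      split_ifs
      · rw [h1_one]
      · rw [h1_zero]
  · funext a
    rw [h3 a]
    unfold SK.psum
    exact Finset.sum_congr rfl fun j _ => by ring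

theorem unit_of_near (P : Fin N → MvPolynomial (Fin (n + 1)) k) (ε : ℕ → ℝ)
    (hε : ∀ r, 0 < ε r) (h : NearP ε P) : UnitSumP P := by
  classical
  intro K _ _ _ S hS r
  obtain ⟨φ⟩ := exists_emb K
  let _ : Algebra k Qbar := (φ.comp (algebraMap k K)).toAlgebra
  have hφ : ∀ (F : MvPolynomial (Fin (n + 1)) k) (y : Fin (n + 1) → K),
      aeval (fun a => φ (y a)) F = φ (aeval y F) := by
    intro F y
    rw [aeval_def, aeval_def, MvPolynomial.hom_eval₂]
    rfl
  obtain ⟨A, e, hA⟩ := h ((n + 1) * r) (SU φ S) (SU_fg φ S hS)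
  obtain ⟨hfin, -⟩ := hA (fun j a => if (finProdFinEquiv.symm j).1 = a then (1 : Qbar) else 0)
  have hφ0 : ∀ y : Fin (n + 1) → K, y ≠ 0 → (fun a => φ (y a)) ≠ 0 := by
    intro y hy h0
    apply hy
    funext a
    exact (map_eq_zero φ).1 (congrFun h0 a)
  refine Set.Finite.of_injOn (f := fun p : Projectivization K (Fin (n + 1) → K) =>
    Projectivization.mk Qbar (fun a => φ (p.rep a)) (hφ0 _ p.rep_nonzero)) ?_ ?_ hfin
  · rintro p ⟨y, hy, rfl, hz, hu⟩
    obtain ⟨u, s, h1, h2, h3⟩ := unit_vectors φ S r y hu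
    have e1 : SK.psum Finset.univ u (fun j a => s j *
        (if (finProdFinEquiv.symm j).1 = a then (1 : Qbar) else 0)) = fun a => φ (y a) := by
      funext a
      rw [h3 a]
      unfold SK.psum
      exact Finset.sum_congr rfl fun j _ => by ring
    refine ⟨u, s, fun j => sub_hull _ _ (h1 j), ?_, ?_, ?_⟩
    · refine lt_of_le_of_lt ((height_le_sum _).trans (Finset.sum_nonpos fun j _ => ?_)) (hε _)
      rcases h2 j with h4 | h4
      · rw [h4, h1_zero]
      · rw [h4, h1_one]
    · rw [e1]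
      refine ⟨hφ0 y hy, fun i => ?_, ?_⟩
      · rw [hφ, hz i, map_zero]
      · rw [map_one]
        exact one_ne_zero
    · have h4 : SK.psum Finset.univ u (fun j a => s j *
        (if (finProdFinEquiv.symm j).1 = a then (1 : Qbar) else 0)) ≠ 0 := by
        rw [e1]
        exact hφ0 y hy
      refine ⟨h4, ?_⟩
      obtain ⟨c, hc⟩ := Projectivization.exists_smul_eq_mk_rep K y hy
      rw [Projectivization.mk_eq_mk_iff']
      refine ⟨φ c, ?_⟩
      funext a
      rw [Pi.smul_apply, smul_eq_mul, e1, ← hc]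
      show φ c * φ (y a) = φ ((c : K) * y a)
      rw [map_mul]
  · intro p _ p' _ hpp
    obtain ⟨c, hc⟩ := (Projectivization.mk_eq_mk_iff' Qbar _ _ (hφ0 _ p.rep_nonzero)
      (hφ0 _ p'.rep_nonzero)).1 hpp
    have hc' : ∀ a, c * φ (p'.rep a) = φ (p.rep a) := fun a => congrFun hc a
    obtain ⟨b, hb⟩ : ∃ b, p'.rep b ≠ 0 := Function.ne_iff.1 p'.rep_nonzero
    have hcK : ∀ a, p.rep a = (p.rep b / p'.rep b) * p'.rep a := by
      intro a
      have h1 : p.rep a * p'.rep b = p.rep b * p'.rep a := by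
        apply φ.injective
        rw [map_mul, map_mul, ← hc' a, ← hc' b]
        ring
      rw [div_mul_eq_mul_div, eq_div_iff hb, h1]
    rw [← p.mk_rep, ← p'.mk_rep, Projectivization.mk_eq_mk_iff']
    exact ⟨p.rep b / p'.rep b, funext fun a => (hcK a).symm⟩

end Pool.Agent.Y215.AF
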