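import Mathlib
import Pool.Agent.Y215.AF.Main
import Pool.Agent.TH942.SL.Prim

set_option autoImplicit false
set_option linter.unusedSectionVars false
set_option linter.unusedSimpArgs false

/-! # Entire curves with coordinates which are sums of functions without zeros -/

namespace Pool.Agent.Y215.AF

open Finset MvPolynomial NumberField Pool.Agent.W235.RM
open Pool.Agent.H159R3.Exp (Laur ExpCurvesIn ExpPoly ExpType)

/-- an entire function without zeros is an exponential -/
theorem exists_log {Ψ : ℂ → ℂ} (hd : Differentiable ℂ Ψ) (hne : ∀ z, Ψ z ≠ 0) :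
    ∃ L : ℂ → ℂ, Differentiable ℂ L ∧ ∀ z, Ψ z = Complex.exp (L z) := by
  obtain ⟨L₀, hL₀⟩ := Pool.Agent.TH942.SL.convex_primitive isOpen_univ convex_univ
    (f := fun z => deriv Ψ z / Ψ z)
    (((hd.differentiableOn (s := Set.univ)).deriv isOpen_univ).div hd.differentiableOn
      (fun z _ => hne z))
  obtain ⟨κ, hκ⟩ : ∃ κ : ℂ, κ = Complex.log (Ψ 0) - L₀ 0 := ⟨_, rfl⟩
  have hL : ∀ z, HasDerivAt (fun z => L₀ z + κ) (deriv Ψ z / Ψ z) z := fun z =>
    (hL₀ z (Set.mem_univ z)).add_const κ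
  refine ⟨fun z => L₀ z + κ, fun z => (hL z).differentiableAt, fun z => ?_⟩
  have hD : ∀ w, HasDerivAt (fun w => Ψ w * Complex.exp (-(L₀ w + κ))) 0 w := by
    intro w
    have h1 : HasDerivAt Ψ (deriv Ψ w) w := (hd w).hasDerivAt
    have h2 := h1.mul ((hL w).neg.cexp)
    refine h2.congr_deriv ?_
    have := hne w
    simp only [Pi.neg_apply]
    field_simp
    ring
  have h3 := is_const_of_deriv_eq_zero (f := fun w => Ψ w * Complex.exp (-(L₀ w + κ)))
    (fun w => (hD w).differentiableAt) (fun w => (hD w).deriv) z 0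
  have h4 : Ψ 0 * Complex.exp (-(L₀ 0 + κ)) = 1 := by
    have : L₀ 0 + κ = Complex.log (Ψ 0) := by rw [hκ]; ring
    rw [this, Complex.exp_neg, Complex.exp_log (hne 0), mul_inv_cancel₀ (hne 0)]
  rw [h4, Complex.exp_neg] at h3
  have h5 := Complex.exp_ne_zero (L₀ z + κ)
  field_simp at h3
  exact h3

variable {K : Type} [Field K] {ι κ : Type} {n : ℕ}
  (σ : K →+* ℂ) (F : ι → MvPolynomial (Fin n) (𝓞 K)) (G : κ → MvPolynomial (Fin n) (𝓞 K))

/-- Every nonconstant entire curve in `V`, all of whose coordinates are finite sums of entire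
functions without zeros, lies in `V'`. -/
def UnitCurvesIn : Prop :=
  ∀ f : ℂ → Fin n → ℂ,
    (∀ a, ∃ (r : ℕ) (u : Fin r → ℂ → ℂ), (∀ j, Differentiable ℂ (u j) ∧ ∀ z, u j z ≠ 0) ∧
      ∀ z, f z a = ∑ j, u j z) →
    (∀ z i, eval₂ (σ.comp (algebraMap (𝓞 K) K)) (f z) (F i) = 0) → (∃ z w, f z ≠ f w) →
    ∀ z l, eval₂ (σ.comp (algebraMap (𝓞 K) K)) (f z) (G l) = 0

theorem unit_of_exp (h : ExpCurvesIn σ F G) : UnitCurvesIn σ F G := by
  classical
  intro f hf hF hnc
  refine h f ⟨?_, id, differentiable_id, ⟨0, 1, zero_ne_one⟩, ?_⟩ hF hnc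
  · rw [differentiable_pi]
    intro a
    obtain ⟨r, u, hu, hfu⟩ := hf a
    have e : (fun z => f z a) = fun z => ∑ j, u j z := funext hfu
    rw [e]
    exact Differentiable.fun_sum fun j _ => (hu j).1
  · choose r u hu hfu using hf
    choose g hg hug using fun (p : Σ a : Fin n, Fin (r a)) => exists_log (hu p.1 p.2).1 (hu p.1 p.2).2
    let e : (Σ a : Fin n, Fin (r a)) ≃ Fin (Fintype.card (Σ a : Fin n, Fin (r a))) :=
      Fintype.equivFin _
    refine ⟨_, fun i => g (e.symm i), fun a => ∑ j : Fin (r a), X (Fin.succ (e ⟨a, j⟩)),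
      fun i => hg _, fun z a => ?_⟩
    show f (id z) a = _
    rw [id, hfu a z, map_sum]
    refine Finset.sum_congr rfl fun j _ => ?_
    rw [eval_X, Fin.cons_succ]
    show _ = Complex.exp (g (e.symm (e ⟨a, j⟩)) z)
    rw [Equiv.symm_apply_apply]
    exact hug ⟨a, j⟩ z

theorem gm_of_unit (h : UnitCurvesIn σ F G) : GmCurvesIn σ F G := by
  classical
  intro v hv hF hnc l t ht
  obtain ⟨M, Q, hQ⟩ := Laur.common v hv
  have h1 := h (fun z => v (Complex.exp z)) ?_ (fun z i => hF i _ (Complex.exp_ne_zero z)) ?_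
    (Complex.log t) l
  · simp only [Complex.exp_log ht] at h1
    exact h1
  · intro a
    let e : (Q a).support ≃ Fin (Fintype.card (Q a).support) := Fintype.equivFin _
    refine ⟨_, fun j z => (Q a).coeff (e.symm j).1 *
      Complex.exp ((((e.symm j).1 : ℂ) - M) * z), fun j => ⟨?_, fun z => ?_⟩, fun z => ?_⟩
    · exact (Differentiable.cexp (differentiable_id.const_mul _)).const_mul _
    · exact mul_ne_zero (Polynomial.mem_support_iff.1 (e.symm j).2) (Complex.exp_ne_zero _)
    · show v (Complex.exp z) a = _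
      rw [hQ _ (Complex.exp_ne_zero z) a, Equiv.sum_comp e.symm (fun i : (Q a).support =>
        (Q a).coeff i.1 * Complex.exp (((i.1 : ℂ) - M) * z)), Polynomial.eval_eq_sum,
        Polynomial.sum_def, Finset.sum_div, ← Finset.sum_coe_sort]
      refine Finset.sum_congr rfl fun i _ => ?_
      rw [← Complex.exp_nat_mul, ← Complex.exp_nat_mul, mul_div_assoc, ← Complex.exp_sub]
      congr 2
      ring
  · obtain ⟨t, s, ht, hs, hts⟩ := hnc
    refine ⟨Complex.log t, Complex.log s, ?_⟩
    simp only [Complex.exp_log ht, Complex.exp_log hs]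
    exact hts

end Pool.Agent.Y215.AF
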